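import Pool.Agent.SzNF.Onb
import Pool.Agent.SzSP.Onb

/-!
Integrability of the logarithmic potential and energy of the image of the canonical measure.
-/

open Polynomial MeasureTheory

namespace SzNF

/-- local kernel -/
private noncomputable def enK (g : ℝ) (w : ℂ) : ℝ := if ‖w‖ ≤ 1 then ‖w‖ ^ (-g) else 0

private theorem enK_nonneg (g : ℝ) (w : ℂ) : 0 ≤ enK g w := by
  unfold enK
  split_ifs
  · positivity
  · exact le_rfl

private theorem enK_mono {a b : ℝ} (ha : 0 < a) (hab : a ≤ b) (w : ℂ) : enK a w ≤ enK b w := by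
  unfold enK
  split_ifs with h
  · rcases eq_or_ne ‖w‖ 0 with h0 | h0
    · rw [h0, Real.zero_rpow (by linarith), Real.zero_rpow (by linarith)]
    · have hpos : 0 < ‖w‖ := lt_of_le_of_ne (norm_nonneg _) (Ne.symm h0)
      exact Real.rpow_le_rpow_of_exponent_ge hpos h (by linarith)
  · exact le_rfl

private theorem enK_int (g : ℝ) (hg : g < 2) (α : ℂ) : Integrable fun z : ℂ => enK g (z - α) :=
  SzSP.onb_loc g 1 hg α

private theorem enK_neg (g : ℝ) (x s : ℂ) : enK g (x - s) = enK g (s - x) := by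
  unfold enK
  rw [norm_sub_rev]

private theorem enK_int' (g : ℝ) (hg : g < 2) (x : ℂ) :
    Integrable (fun s : ℂ => enK g (x - s)) ∧
      ∫ s : ℂ, enK g (x - s) = ∫ s : ℂ, enK g s := by
  refine ⟨?_, ?_⟩
  · simp_rw [enK_neg g x]
    exact enK_int g hg x
  · exact integral_sub_left_eq_self (fun s => enK g s) volume x

private theorem enK_mul {e b : ℝ} (he : 0 < e) (hb : 0 < b) (u v : ℂ) :
    enK e u * enK b v ≤ enK (b + e) u + enK (b + e) v := by
  have h1 := enK_nonneg (b + e) u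
  have h2 := enK_nonneg (b + e) v
  by_cases hu : ‖u‖ ≤ 1
  swap
  · have : enK e u = 0 := if_neg hu
    rw [this, zero_mul]
    positivity
  by_cases hv : ‖v‖ ≤ 1
  swap
  · have : enK b v = 0 := if_neg hv
    rw [this, mul_zero]
    positivity
  rcases eq_or_ne ‖u‖ 0 with h0 | h0
  · have : enK e u = 0 := by
      unfold enK
      rw [if_pos hu, h0, Real.zero_rpow (by linarith)]
    rw [this, zero_mul]
    positivity
  rcases eq_or_ne ‖v‖ 0 with h0' | h0'
  · have : enK b v = 0 := by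
      unfold enK
      rw [if_pos hv, h0', Real.zero_rpow (by linarith)]
    rw [this, mul_zero]
    positivity
  have hpu : 0 < ‖u‖ := lt_of_le_of_ne (norm_nonneg _) (Ne.symm h0)
  have hpv : 0 < ‖v‖ := lt_of_le_of_ne (norm_nonneg _) (Ne.symm h0')
  have e1 : enK e u = ‖u‖ ^ (-e) := if_pos hu
  have e2 : enK b v = ‖v‖ ^ (-b) := if_pos hv
  have e3 : enK (b + e) u = ‖u‖ ^ (-(b + e)) := if_pos hu
  have e4 : enK (b + e) v = ‖v‖ ^ (-(b + e)) := if_pos hv
  rcases le_total ‖u‖ ‖v‖ with h | h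
  · have h3 : ‖v‖ ^ (-b) ≤ ‖u‖ ^ (-b) := Real.rpow_le_rpow_of_nonpos hpu h (by linarith)
    have h4 : ‖u‖ ^ (-e) * ‖u‖ ^ (-b) = ‖u‖ ^ (-(b + e)) := by
      rw [← Real.rpow_add hpu]
      congr 1
      ring
    have h5 : enK e u * enK b v ≤ enK (b + e) u := by
      rw [e1, e2, e3, ← h4]
      exact mul_le_mul_of_nonneg_left h3 (by positivity)
    linarith
  · have h3 : ‖u‖ ^ (-e) ≤ ‖v‖ ^ (-e) := Real.rpow_le_rpow_of_nonpos hpv h (by linarith)
    have h4 : ‖v‖ ^ (-e) * ‖v‖ ^ (-b) = ‖v‖ ^ (-(b + e)) := by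
      rw [← Real.rpow_add hpv]
      congr 1
      ring
    have h5 : enK e u * enK b v ≤ enK (b + e) v := by
      rw [e1, e2, e4, ← h4]
      exact mul_le_mul_of_nonneg_right h3 (by positivity)
    linarith

/-- the majorant of the density -/
private noncomputable def enM (S : Finset ℂ) (b η : ℝ) (z : ℂ) : ℝ :=
  ∑ α ∈ S, enK b (z - α) + (1 + ‖z‖) ^ (-(2 + η))

private theorem enM_nonneg (S : Finset ℂ) (b η : ℝ) (z : ℂ) : 0 ≤ enM S b η z := by
  unfold enM
  exact add_nonneg (Finset.sum_nonneg fun α _ => enK_nonneg _ _) (by positivity)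

private theorem en_far_int {η : ℝ} (hη : 0 < η) :
    Integrable fun z : ℂ => (1 + ‖z‖) ^ (-(2 + η)) := by
  refine integrable_one_add_norm ?_
  rw [Complex.finrank_real_complex]
  push_cast
  linarith

private theorem enM_int (S : Finset ℂ) (b η : ℝ) (hb : b < 2) (hη : 0 < η) :
    Integrable (enM S b η) :=
  (integrable_finsetSum _ fun α _ => enK_int b hb α).add (en_far_int hη)

private theorem enM_log_int (S : Finset ℂ) (b η : ℝ) (hb : b < 2) (hη : 0 < η) :
    Integrable fun z : ℂ => Real.log (1 + ‖z‖) * enM S b η z := by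
  have hG : Integrable (fun z : ℂ => ∑ α ∈ S, Real.log (2 + ‖α‖) * enK b (z - α) +
      2 / η * (1 + ‖z‖) ^ (-(2 + η / 2))) :=
    (integrable_finsetSum _ fun α _ => (enK_int b hb α).const_mul _).add
      ((en_far_int (half_pos hη)).const_mul _)
  have hmeas : AEStronglyMeasurable (fun z : ℂ => Real.log (1 + ‖z‖) * enM S b η z) volume :=
    (Real.measurable_log.comp (measurable_const.add measurable_norm)).aestronglyMeasurable.mul
      (enM_int S b η hb hη).aestronglyMeasurable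
  refine hG.mono' hmeas (Filter.Eventually.of_forall fun z => ?_)
  have hl : 0 ≤ Real.log (1 + ‖z‖) := Real.log_nonneg (by linarith [norm_nonneg z])
  rw [Real.norm_of_nonneg (mul_nonneg hl (enM_nonneg _ _ _ _))]
  unfold enM
  rw [mul_add, Finset.mul_sum]
  refine add_le_add (Finset.sum_le_sum fun α _ => ?_) ?_
  · by_cases h : ‖z - α‖ ≤ 1
    · refine mul_le_mul_of_nonneg_right ?_ (enK_nonneg _ _)
      refine Real.log_le_log (by positivity) ?_
      have : ‖z‖ ≤ ‖z - α‖ + ‖α‖ := by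
        have := norm_add_le (z - α) α
        rwa [sub_add_cancel] at this
      linarith
    · have : enK b (z - α) = 0 := if_neg h
      rw [this, mul_zero, mul_zero]
  · have hp : 0 < 1 + ‖z‖ := by positivity
    have h1 : Real.log (1 + ‖z‖) ≤ (1 + ‖z‖) ^ (η / 2) / (η / 2) :=
      Real.log_le_rpow_div hp.le (half_pos hη)
    have h2 : (1 + ‖z‖) ^ (η / 2) * (1 + ‖z‖) ^ (-(2 + η)) = (1 + ‖z‖) ^ (-(2 + η / 2)) := by
      rw [← Real.rpow_add hp]
      congr 1
      ring
    calc Real.log (1 + ‖z‖) * (1 + ‖z‖) ^ (-(2 + η))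
        ≤ (1 + ‖z‖) ^ (η / 2) / (η / 2) * (1 + ‖z‖) ^ (-(2 + η)) :=
          mul_le_mul_of_nonneg_right h1 (by positivity)
      _ = 2 / η * ((1 + ‖z‖) ^ (η / 2) * (1 + ‖z‖) ^ (-(2 + η))) := by
          field_simp
      _ = _ := by rw [h2]

/-- the logarithm is bounded by the kernel -/
private theorem en_log (e : ℝ) (he : 0 < e) (x s : ℂ) :
    |Real.log ‖x - s‖| ≤
      1 / e * enK e (x - s) + (Real.log (1 + ‖x‖) + Real.log (1 + ‖s‖)) := by
  have hx : 0 ≤ Real.log (1 + ‖x‖) := Real.log_nonneg (by linarith [norm_nonneg x])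
  have hs : 0 ≤ Real.log (1 + ‖s‖) := Real.log_nonneg (by linarith [norm_nonneg s])
  have hk := enK_nonneg e (x - s)
  have hke : 0 ≤ 1 / e * enK e (x - s) := by positivity
  rcases eq_or_ne ‖x - s‖ 0 with h0 | h0
  · rw [h0, Real.log_zero, abs_zero]
    positivity
  have hpos : 0 < ‖x - s‖ := lt_of_le_of_ne (norm_nonneg _) (Ne.symm h0)
  by_cases h : ‖x - s‖ ≤ 1
  · have h1 := Real.abs_log_mul_self_rpow_lt ‖x - s‖ e hpos h he
    have h2 : enK e (x - s) = ‖x - s‖ ^ (-e) := if_pos h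
    have h3 : |Real.log ‖x - s‖| ≤ 1 / e * enK e (x - s) := by
      rw [h2, Real.rpow_neg hpos.le, ← div_eq_mul_inv, le_div_iff₀ (by positivity)]
      rw [abs_mul, abs_of_nonneg (show 0 ≤ ‖x - s‖ ^ e by positivity)] at h1
      exact h1.le
    linarith
  · rw [not_le] at h
    rw [abs_of_nonneg (Real.log_nonneg h.le), ← Real.log_mul (by positivity) (by positivity)]
    have h1 : Real.log ‖x - s‖ ≤ Real.log ((1 + ‖x‖) * (1 + ‖s‖)) := by
      refine Real.log_le_log hpos ?_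
      have h2 := norm_sub_le x s
      nlinarith [norm_nonneg x, norm_nonneg s, mul_nonneg (norm_nonneg x) (norm_nonneg s)]
    linarith

/-- one power -/
private theorem en_power (S : Finset ℂ) (hS : S.Nonempty) (b η s : ℝ) (hs : 0 < s) (hsb : s ≤ b)
    (hη : 0 < η) (i : ℕ) (hr : 2 + η ≤ S.card * s - 2 * i) :
    ∃ C : ℝ, 0 ≤ C ∧ ∀ z : ℂ, ‖z‖ ^ (2 * i) * (∏ α ∈ S, ‖z - α‖) ^ (-s) ≤ C * enM S b η z := by
  obtain ⟨C, hC0, hC⟩ := SzSP.onb_near S hS s hs
  obtain ⟨R, hR1, hRS⟩ : ∃ R : ℝ, 1 ≤ R ∧ ∀ α ∈ S, 2 * ‖α‖ ≤ R := by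
    refine ⟨1 + ∑ α ∈ S, 2 * ‖α‖, ?_, fun α hα => ?_⟩
    · have : 0 ≤ ∑ α ∈ S, 2 * ‖α‖ := Finset.sum_nonneg fun _ _ => by positivity
      linarith
    · have := Finset.single_le_sum (f := fun α : ℂ => 2 * ‖α‖) (fun _ _ => by positivity) hα
      linarith
  set D1 : ℝ := (2 : ℝ) ^ (S.card * s) * 2 ^ (S.card * s - 2 * i) with hD1
  have hD10 : 0 ≤ D1 := by positivity
  set D2 : ℝ := R ^ (2 * i) * C with hD2
  have hD20 : 0 ≤ D2 := by positivity
  set D3 : ℝ := (1 + R) ^ (2 + η) with hD3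
  have hD30 : 0 ≤ D3 := by positivity
  refine ⟨D1 + D2 * (1 + S.card * D3), by positivity, fun z => ?_⟩
  have hMn := enM_nonneg S b η z
  have hfar : (1 + ‖z‖) ^ (-(2 + η)) ≤ enM S b η z := by
    unfold enM
    have : 0 ≤ ∑ α ∈ S, enK b (z - α) := Finset.sum_nonneg fun α _ => enK_nonneg _ _
    linarith
  have hloc : ∑ α ∈ S, enK b (z - α) ≤ enM S b η z := by
    unfold enM
    have : 0 ≤ (1 + ‖z‖) ^ (-(2 + η)) := by positivity
    linarith
  rcases le_total ‖z‖ R with hz | hz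
  · have h1 : (1 : ℝ) ≤ D3 * (1 + ‖z‖) ^ (-(2 + η)) := by
      rw [hD3, Real.rpow_neg (by positivity), ← div_eq_mul_inv, one_le_div (by positivity)]
      exact Real.rpow_le_rpow (by positivity) (by linarith) (by linarith)
    have h2 : ∀ α ∈ S, ‖z - α‖ ^ (-s) ≤ enK b (z - α) + D3 * enM S b η z := by
      intro α _
      have h3 : (1 : ℝ) ≤ D3 * enM S b η z := h1.trans (mul_le_mul_of_nonneg_left hfar hD30)
      by_cases h : ‖z - α‖ ≤ 1
      · have h4 : enK s (z - α) = ‖z - α‖ ^ (-s) := if_pos h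
        rw [← h4]
        have := enK_mono hs hsb (z - α)
        linarith
      · rw [not_le] at h
        have h4 : ‖z - α‖ ^ (-s) ≤ 1 := Real.rpow_le_one_of_one_le_of_nonpos h.le (by linarith)
        have := enK_nonneg b (z - α)
        linarith
    have h3 : ∑ α ∈ S, ‖z - α‖ ^ (-s) ≤ (1 + S.card * D3) * enM S b η z := by
      calc ∑ α ∈ S, ‖z - α‖ ^ (-s) ≤ ∑ α ∈ S, (enK b (z - α) + D3 * enM S b η z) :=
            Finset.sum_le_sum h2
        _ = ∑ α ∈ S, enK b (z - α) + S.card * (D3 * enM S b η z) := by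
            rw [Finset.sum_add_distrib, Finset.sum_const, nsmul_eq_mul]
        _ ≤ _ := by linarith
    calc ‖z‖ ^ (2 * i) * (∏ α ∈ S, ‖z - α‖) ^ (-s)
        ≤ R ^ (2 * i) * (C * ∑ α ∈ S, ‖z - α‖ ^ (-s)) :=
          mul_le_mul (pow_le_pow_left₀ (norm_nonneg _) hz _) (hC z)
            (Real.rpow_nonneg (Finset.prod_nonneg fun _ _ => norm_nonneg _) _) (by positivity)
      _ = D2 * ∑ α ∈ S, ‖z - α‖ ^ (-s) := by rw [hD2]; ring
      _ ≤ D2 * ((1 + S.card * D3) * enM S b η z) := mul_le_mul_of_nonneg_left h3 hD20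
      _ ≤ (D1 + D2 * (1 + S.card * D3)) * enM S b η z := by
          have : 0 ≤ D1 * enM S b η z := mul_nonneg hD10 hMn
          linarith
  · have h1 := SzSP.onb_far R hR1 S hRS s hs i z hz (by linarith)
    have h2 : (1 + ‖z‖) ^ (-(S.card * s - 2 * i)) ≤ (1 + ‖z‖) ^ (-(2 + η)) :=
      Real.rpow_le_rpow_of_exponent_le (by linarith [norm_nonneg z]) (by linarith)
    calc ‖z‖ ^ (2 * i) * (∏ α ∈ S, ‖z - α‖) ^ (-s)
        ≤ D1 * (1 + ‖z‖) ^ (-(S.card * s - 2 * i)) := h1
      _ ≤ D1 * enM S b η z := mul_le_mul_of_nonneg_left (h2.trans hfar) hD10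
      _ ≤ (D1 + D2 * (1 + S.card * D3)) * enM S b η z := by
          have : 0 ≤ D2 * (1 + S.card * D3) * enM S b η z := by positivity
          linarith

private theorem rho_nonneg (m n : ℕ) (F : ℂ[X]) (e : (j : ℕ) → Fin (n * j / m) → ℂ[X]) (z : ℂ) :
    0 ≤ rho m n F e z := by
  unfold rho
  refine mul_nonneg (by positivity) (Finset.sum_nonneg fun j _ => Finset.sum_nonneg fun k _ => ?_)
  unfold wt
  positivity

private theorem rho_meas (m n : ℕ) (F : ℂ[X]) (e : (j : ℕ) → Fin (n * j / m) → ℂ[X]) :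
    Measurable (rho m n F e) := by
  unfold rho
  refine Measurable.const_mul (Finset.measurable_fun_sum _ fun j _ =>
    Finset.measurable_fun_sum _ fun k _ => ?_) _
  refine Measurable.mul ((e j k).continuous.norm.measurable.pow_const _) ?_
  unfold wt
  exact (F.continuous.norm.measurable).pow_const _

/-- the density is bounded by the majorant -/
private theorem en_rho (m n : ℕ) (hm : 2 ≤ m) (F : ℂ[X]) (hF : F.Monic) (hs : F.Separable)
    (hn : F.natDegree = n) (hn1 : 1 ≤ n) (hmn : m.Coprime n)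
    (e : (j : ℕ) → Fin (n * j / m) → ℂ[X]) (he : IsONB m n F e) :
    ∃ (S : Finset ℂ) (b η C : ℝ), 0 < b ∧ b < 2 ∧ 0 < η ∧ 0 ≤ C ∧
      ∀ z, rho m n F e z ≤ C * enM S b η z := by
  classical
  obtain ⟨S, hS, hev, -⟩ := onb_roots F hF hs
  have hSn : S.Nonempty := by
    rw [← Finset.card_pos, hS]
    omega
  have hmr : (0 : ℝ) < m := by exact_mod_cast (by omega : 0 < m)
  have hm1 : (1 : ℝ) ≤ ((m - 1 : ℕ) : ℝ) := by exact_mod_cast (by omega : 1 ≤ m - 1)
  have hb2 : 2 * ((m - 1 : ℕ) : ℝ) / m < 2 := by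
    rw [div_lt_iff₀ hmr]
    have : ((m - 1 : ℕ) : ℝ) < m := by exact_mod_cast (by omega : m - 1 < m)
    linarith
  -- one term
  have key : ∀ j ∈ Finset.Ico 1 m, ∀ k : Fin (n * j / m), ∃ C : ℝ, 0 ≤ C ∧
      ∀ z, ‖(e j k).eval z‖ ^ 2 * wt m F j z ≤ C * enM S (2 * ((m - 1 : ℕ) : ℝ) / m) (2 / m) z := by
    intro j hj k
    obtain ⟨hs0, hs2⟩ := exp_pos m j hj
    have hdeg := (he j hj).1 k
    have hjm : (j : ℝ) ≤ ((m - 1 : ℕ) : ℝ) := by
      rw [Finset.mem_Ico] at hj
      exact_mod_cast (by omega : j ≤ m - 1)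
    have hsb : 2 * (j : ℝ) / m ≤ 2 * ((m - 1 : ℕ) : ℝ) / m := by
      gcongr
    have hi : ∀ i : Fin (n * j / m), ∃ C : ℝ, 0 ≤ C ∧ ∀ z : ℂ, ‖z‖ ^ (2 * (i : ℕ)) *
        (∏ α ∈ S, ‖z - α‖) ^ (-(2 * (j : ℝ) / m)) ≤
          C * enM S (2 * ((m - 1 : ℕ) : ℝ) / m) (2 / m) z := by
      intro i
      refine en_power S hSn _ _ _ hs0 hsb (by positivity) i ?_
      rw [hS, hn]
      exact exp_le m n hm hmn j hj i i.2
    choose Ci hCi0 hCi using hi
    refine ⟨(n * j / m : ℕ) * ∑ i : Fin (n * j / m), ‖(e j k).coeff i‖ ^ 2 * Ci i, ?_, fun z => ?_⟩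
    · exact mul_nonneg (by positivity) (Finset.sum_nonneg fun i _ =>
        mul_nonneg (by positivity) (hCi0 i))
    · have hw : wt m F j z = (∏ α ∈ S, ‖z - α‖) ^ (-(2 * (j : ℝ) / m)) := by
        unfold wt
        rw [hev z, norm_prod]
      have hw0 : 0 ≤ wt m F j z := by
        unfold wt
        positivity
      have h1 : (e j k).eval z = ∑ i : Fin (n * j / m), (e j k).coeff i * z ^ (i : ℕ) := by
        rcases eq_or_ne (e j k) 0 with h0 | h0
        · rw [h0]
          simp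
        · have h2 : (e j k).natDegree < n * j / m := (natDegree_lt_iff_degree_lt h0).2 hdeg
          rw [eval_eq_sum_range' h2, Finset.sum_range]
      have h2 : ‖(e j k).eval z‖ ^ 2 ≤
          (n * j / m : ℕ) * ∑ i : Fin (n * j / m), ‖(e j k).coeff i‖ ^ 2 * ‖z‖ ^ (2 * (i : ℕ)) := by
        have h3 : ‖(e j k).eval z‖ ≤ ∑ i : Fin (n * j / m), ‖(e j k).coeff i‖ * ‖z‖ ^ (i : ℕ) := by
          rw [h1]
          refine (norm_sum_le _ _).trans (le_of_eq ?_)
          refine Finset.sum_congr rfl fun i _ => ?_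
          rw [norm_mul, norm_pow]
        have h4 := pow_le_pow_left₀ (norm_nonneg _) h3 2
        refine h4.trans ?_
        refine (sq_sum_le_card_mul_sum_sq).trans (le_of_eq ?_)
        rw [Finset.card_univ, Fintype.card_fin]
        congr 1
        refine Finset.sum_congr rfl fun i _ => ?_
        rw [mul_pow, ← pow_mul, mul_comm 2 (i : ℕ)]
      calc ‖(e j k).eval z‖ ^ 2 * wt m F j z
          ≤ ((n * j / m : ℕ) * ∑ i : Fin (n * j / m), ‖(e j k).coeff i‖ ^ 2 *
              ‖z‖ ^ (2 * (i : ℕ))) * wt m F j z := mul_le_mul_of_nonneg_right h2 hw0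
        _ = (n * j / m : ℕ) * ∑ i : Fin (n * j / m), ‖(e j k).coeff i‖ ^ 2 *
              (‖z‖ ^ (2 * (i : ℕ)) * wt m F j z) := by
            rw [mul_assoc, Finset.sum_mul]
            congr 1
            exact Finset.sum_congr rfl fun i _ => by ring
        _ ≤ (n * j / m : ℕ) * ∑ i : Fin (n * j / m), ‖(e j k).coeff i‖ ^ 2 *
              (Ci i * enM S (2 * ((m - 1 : ℕ) : ℝ) / m) (2 / m) z) := by
            refine mul_le_mul_of_nonneg_left (Finset.sum_le_sum fun i _ => ?_) (by positivity)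
            refine mul_le_mul_of_nonneg_left ?_ (by positivity)
            rw [hw]
            exact hCi i z
        _ = _ := by
            rw [mul_assoc, Finset.sum_mul]
            congr 1
            exact Finset.sum_congr rfl fun i _ => by ring
  choose! C hC0 hC using key
  refine ⟨S, 2 * ((m - 1 : ℕ) : ℝ) / m, 2 / m,
    ((m : ℝ) / genus m n) * ∑ j ∈ Finset.Ico 1 m, ∑ k, C j k, by positivity, hb2, by positivity,
    ?_, fun z => ?_⟩
  · exact mul_nonneg (by positivity) (Finset.sum_nonneg fun j hj =>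
      Finset.sum_nonneg fun k _ => hC0 j hj k)
  · unfold rho
    rw [mul_assoc, Finset.sum_mul]
    refine mul_le_mul_of_nonneg_left (Finset.sum_le_sum fun j hj => ?_) (by positivity)
    rw [Finset.sum_mul]
    exact Finset.sum_le_sum fun k _ => hC j hj k z

/-- domination of the integrand of the potential -/
private theorem en_main (m n : ℕ) (hm : 2 ≤ m) (F : ℂ[X]) (hF : F.Monic) (hs : F.Separable)
    (hn : F.natDegree = n) (hn1 : 1 ≤ n) (hmn : m.Coprime n)
    (e : (j : ℕ) → Fin (n * j / m) → ℂ[X]) (he : IsONB m n F e) :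
    ∃ (γ A : ℝ) (M H : ℂ → ℝ), γ < 2 ∧ 0 ≤ A ∧ Integrable M ∧
      Integrable (fun s : ℂ => Real.log (1 + ‖s‖) * M s) ∧ Integrable H ∧
      (∀ s, 0 ≤ M s) ∧ (∀ s, 0 ≤ H s) ∧ (∀ s, rho m n F e s ≤ M s) ∧
      ∀ x s, ‖Real.log ‖x - s‖ * rho m n F e s‖ ≤
        A * enK γ (x - s) + H s + Real.log (1 + ‖x‖) * M s := by
  obtain ⟨S, b, η, C, hb0, hb2, hη, hC0, hC⟩ := en_rho m n hm F hF hs hn hn1 hmn e he
  set ε : ℝ := (2 - b) / 2 with hε
  have hε0 : 0 < ε := by
    rw [hε]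
    linarith
  have hγ : b + ε < 2 := by
    rw [hε]
    linarith
  have hK : 0 ≤ 1 / ε * C := by positivity
  refine ⟨b + ε, 1 / ε * C * (S.card + 1), fun s => C * enM S b η s,
    fun s => 1 / ε * C * ∑ α ∈ S, enK (b + ε) (s - α) + C * (Real.log (1 + ‖s‖) * enM S b η s),
    hγ, by positivity, (enM_int S b η hb2 hη).const_mul _, ?_, ?_,
    fun s => mul_nonneg hC0 (enM_nonneg _ _ _ _), ?_, hC, ?_⟩
  · refine ((enM_log_int S b η hb2 hη).const_mul C).congr
      (Filter.Eventually.of_forall fun s => ?_)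
    simp only
    ring
  · exact ((integrable_finsetSum _ fun α _ => enK_int _ hγ α).const_mul _).add
      ((enM_log_int S b η hb2 hη).const_mul C)
  · intro s
    refine add_nonneg (mul_nonneg hK (Finset.sum_nonneg fun α _ => enK_nonneg _ _)) ?_
    exact mul_nonneg hC0 (mul_nonneg (Real.log_nonneg (by linarith [norm_nonneg s]))
      (enM_nonneg _ _ _ _))
  · intro x s
    have hr0 := rho_nonneg m n F e s
    have hMn := enM_nonneg S b η s
    rw [norm_mul, Real.norm_of_nonneg hr0, Real.norm_eq_abs]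
    have h1 := en_log ε hε0 x s
    have h2 : |Real.log ‖x - s‖| * rho m n F e s ≤
        (1 / ε * enK ε (x - s) + (Real.log (1 + ‖x‖) + Real.log (1 + ‖s‖))) *
          (C * enM S b η s) :=
      mul_le_mul h1 (hC s) hr0 ((abs_nonneg _).trans h1)
    refine h2.trans ?_
    have h3 : enK ε (x - s) * enM S b η s ≤
        (S.card + 1) * enK (b + ε) (x - s) + ∑ α ∈ S, enK (b + ε) (s - α) := by
      unfold enM
      rw [mul_add, Finset.mul_sum]
      have h4 : ∑ α ∈ S, enK ε (x - s) * enK b (s - α) ≤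
          ∑ α ∈ S, (enK (b + ε) (x - s) + enK (b + ε) (s - α)) :=
        Finset.sum_le_sum fun α _ => enK_mul hε0 hb0 _ _
      rw [Finset.sum_add_distrib, Finset.sum_const, nsmul_eq_mul] at h4
      have h5 : enK ε (x - s) * (1 + ‖s‖) ^ (-(2 + η)) ≤ enK (b + ε) (x - s) := by
        have h6 : (1 + ‖s‖) ^ (-(2 + η)) ≤ 1 :=
          Real.rpow_le_one_of_one_le_of_nonpos (by linarith [norm_nonneg s]) (by linarith)
        have h7 := enK_mono hε0 (show ε ≤ b + ε by linarith) (x - s)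
        have h8 := enK_nonneg ε (x - s)
        calc enK ε (x - s) * (1 + ‖s‖) ^ (-(2 + η)) ≤ enK ε (x - s) * 1 :=
              mul_le_mul_of_nonneg_left h6 h8
          _ ≤ _ := by linarith
      linarith
    calc (1 / ε * enK ε (x - s) + (Real.log (1 + ‖x‖) + Real.log (1 + ‖s‖))) *
          (C * enM S b η s)
        = 1 / ε * C * (enK ε (x - s) * enM S b η s) + C * (Real.log (1 + ‖s‖) * enM S b η s) +
          Real.log (1 + ‖x‖) * (C * enM S b η s) := by ring
      _ ≤ 1 / ε * C * ((S.card + 1) * enK (b + ε) (x - s) + ∑ α ∈ S, enK (b + ε) (s - α)) +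
          C * (Real.log (1 + ‖s‖) * enM S b η s) +
          Real.log (1 + ‖x‖) * (C * enM S b η s) := by
          have := mul_le_mul_of_nonneg_left h3 hK
          linarith
      _ = _ := by ring

private theorem en_meas (m n : ℕ) (F : ℂ[X]) (e : (j : ℕ) → Fin (n * j / m) → ℂ[X]) :
    Measurable (Function.uncurry fun x s : ℂ => Real.log ‖x - s‖ * rho m n F e s) := by
  have h1 : Measurable fun p : ℂ × ℂ => Real.log ‖p.1 - p.2‖ :=
    Real.measurable_log.comp (continuous_fst.sub continuous_snd).norm.measurable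
  exact h1.mul ((rho_meas m n F e).comp measurable_snd)

theorem en_inner (m n : ℕ) (hm : 2 ≤ m) (F : ℂ[X]) (hF : F.Monic) (hs : F.Separable)
    (hn : F.natDegree = n) (hn1 : 1 ≤ n) (hmn : m.Coprime n)
    (e : (j : ℕ) → Fin (n * j / m) → ℂ[X]) (he : IsONB m n F e) (x : ℂ) :
    Integrable (fun s : ℂ => Real.log ‖x - s‖ * rho m n F e s) := by
  obtain ⟨γ, A, M, H, hγ, hA, hM, hLM, hH, hM0, hH0, hrho, hdom⟩ :=
    en_main m n hm F hF hs hn hn1 hmn e he
  have hG : Integrable fun s : ℂ => A * enK γ (x - s) + H s + Real.log (1 + ‖x‖) * M s :=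
    (((enK_int' γ hγ x).1.const_mul A).add hH).add (hM.const_mul _)
  refine hG.mono' ?_ (Filter.Eventually.of_forall fun s => hdom x s)
  exact ((en_meas m n F e).comp (measurable_const.prodMk measurable_id)).aestronglyMeasurable

theorem en_outer (m n : ℕ) (hm : 2 ≤ m) (F : ℂ[X]) (hF : F.Monic) (hs : F.Separable)
    (hn : F.natDegree = n) (hn1 : 1 ≤ n) (hmn : m.Coprime n)
    (e : (j : ℕ) → Fin (n * j / m) → ℂ[X]) (he : IsONB m n F e) :
    Integrable (fun x : ℂ => (∫ s : ℂ, Real.log ‖x - s‖ * rho m n F e s) * rho m n F e x) := by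
  obtain ⟨γ, A, M, H, hγ, hA, hM, hLM, hH, hM0, hH0, hrho, hdom⟩ :=
    en_main m n hm F hF hs hn hn1 hmn e he
  have hbd : ∀ x : ℂ, ‖∫ s : ℂ, Real.log ‖x - s‖ * rho m n F e s‖ ≤
      (A * ∫ s : ℂ, enK γ s) + (∫ s : ℂ, H s) + Real.log (1 + ‖x‖) * ∫ s : ℂ, M s := by
    intro x
    obtain ⟨hi, hie⟩ := enK_int' γ hγ x
    have hAH : Integrable fun s : ℂ => A * enK γ (x - s) + H s := (hi.const_mul A).add hH
    have hG : Integrable fun s : ℂ => A * enK γ (x - s) + H s + Real.log (1 + ‖x‖) * M s :=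
      hAH.add (hM.const_mul _)
    refine (norm_integral_le_of_norm_le hG (Filter.Eventually.of_forall fun s => hdom x s)).trans
      (le_of_eq ?_)
    rw [integral_add hAH (hM.const_mul _), integral_add (hi.const_mul A) hH,
      integral_const_mul, integral_const_mul, hie]
  have hmeas : StronglyMeasurable fun x : ℂ => ∫ s : ℂ, Real.log ‖x - s‖ * rho m n F e s :=
    StronglyMeasurable.integral_prod_right (en_meas m n F e).stronglyMeasurable
  have hG : Integrable fun x : ℂ => ((A * ∫ s : ℂ, enK γ s) + (∫ s : ℂ, H s)) * M x +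
      (∫ s : ℂ, M s) * (Real.log (1 + ‖x‖) * M x) :=
    (hM.const_mul _).add (hLM.const_mul _)
  refine hG.mono' ?_ (Filter.Eventually.of_forall fun x => ?_)
  · exact hmeas.aestronglyMeasurable.mul (rho_meas m n F e).aestronglyMeasurable
  · rw [norm_mul, Real.norm_of_nonneg (rho_nonneg m n F e x)]
    calc ‖∫ s : ℂ, Real.log ‖x - s‖ * rho m n F e s‖ * rho m n F e x
        ≤ ((A * ∫ s : ℂ, enK γ s) + (∫ s : ℂ, H s) + Real.log (1 + ‖x‖) * ∫ s : ℂ, M s) * M x :=
          mul_le_mul (hbd x) (hrho x) (rho_nonneg m n F e x) ((norm_nonneg _).trans (hbd x))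
      _ = _ := by ring

theorem measurable_rho (m n : ℕ) (F : ℂ[X]) (e : (j : ℕ) → Fin (n * j / m) → ℂ[X]) :
    Measurable (rho m n F e) := rho_meas m n F e

theorem en_abs (m n : ℕ) (hm : 2 ≤ m) (F : ℂ[X]) (hF : F.Monic) (hs : F.Separable)
    (hn : F.natDegree = n) (hn1 : 1 ≤ n) (hmn : m.Coprime n)
    (e : (j : ℕ) → Fin (n * j / m) → ℂ[X]) (he : IsONB m n F e) :
    ∃ G : ℂ → ℝ, (∀ x, 0 ≤ G x) ∧ Integrable (fun x => G x * rho m n F e x) ∧
      (∀ x, ∫ s : ℂ, ‖Real.log ‖x - s‖ * rho m n F e s‖ ≤ G x) ∧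
      Integrable (fun x : ℂ => Real.log (1 + ‖x‖) * rho m n F e x) := by
  obtain ⟨γ, A, M, H, hγ, hA, hM, hLM, hH, hM0, hH0, hrho, hdom⟩ :=
    en_main m n hm F hF hs hn hn1 hmn e he
  have hl : ∀ x : ℂ, 0 ≤ Real.log (1 + ‖x‖) := fun x =>
    Real.log_nonneg (by linarith [norm_nonneg x])
  have hLmeas : Measurable fun x : ℂ => Real.log (1 + ‖x‖) :=
    Real.measurable_log.comp (measurable_const.add measurable_norm)
  have hI1 : 0 ≤ ∫ s : ℂ, enK γ s := integral_nonneg fun s => enK_nonneg γ s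
  have hI2 : 0 ≤ ∫ s : ℂ, H s := integral_nonneg hH0
  have hI3 : 0 ≤ ∫ s : ℂ, M s := integral_nonneg hM0
  refine ⟨fun x => (A * ∫ s : ℂ, enK γ s) + (∫ s : ℂ, H s) + Real.log (1 + ‖x‖) * ∫ s : ℂ, M s,
    fun x => ?_, ?_, fun x => ?_, ?_⟩
  · have := hl x
    positivity
  · have hG : Integrable fun x : ℂ => ((A * ∫ s : ℂ, enK γ s) + (∫ s : ℂ, H s)) * M x +
        (∫ s : ℂ, M s) * (Real.log (1 + ‖x‖) * M x) :=
      (hM.const_mul _).add (hLM.const_mul _)
    refine hG.mono' ?_ (Filter.Eventually.of_forall fun x => ?_)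
    · exact ((measurable_const.add (hLmeas.mul measurable_const)).mul
        (rho_meas m n F e)).aestronglyMeasurable
    · have h0 : 0 ≤ (A * ∫ s : ℂ, enK γ s) + (∫ s : ℂ, H s) + Real.log (1 + ‖x‖) *
          ∫ s : ℂ, M s := by
        have := hl x
        positivity
      rw [Real.norm_of_nonneg (mul_nonneg h0 (rho_nonneg m n F e x))]
      calc _ ≤ ((A * ∫ s : ℂ, enK γ s) + (∫ s : ℂ, H s) + Real.log (1 + ‖x‖) *
            ∫ s : ℂ, M s) * M x := mul_le_mul_of_nonneg_left (hrho x) h0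
        _ = _ := by ring
  · obtain ⟨hi, hie⟩ := enK_int' γ hγ x
    have hAH : Integrable fun s : ℂ => A * enK γ (x - s) + H s := (hi.const_mul A).add hH
    have hG : Integrable fun s : ℂ => A * enK γ (x - s) + H s + Real.log (1 + ‖x‖) * M s :=
      hAH.add (hM.const_mul _)
    have h1 : ∫ s : ℂ, ‖Real.log ‖x - s‖ * rho m n F e s‖ ≤
        ∫ s : ℂ, (A * enK γ (x - s) + H s + Real.log (1 + ‖x‖) * M s) :=
      integral_mono (en_inner m n hm F hF hs hn hn1 hmn e he x).norm hG fun s => hdom x s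
    refine h1.trans (le_of_eq ?_)
    rw [integral_add hAH (hM.const_mul _), integral_add (hi.const_mul A) hH,
      integral_const_mul, integral_const_mul, hie]
  · refine hLM.mono' ?_ (Filter.Eventually.of_forall fun x => ?_)
    · exact (hLmeas.mul (rho_meas m n F e)).aestronglyMeasurable
    · rw [Real.norm_of_nonneg (mul_nonneg (hl x) (rho_nonneg m n F e x))]
      exact mul_le_mul_of_nonneg_left (hrho x) (hl x)

end SzNF
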