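import Pool.Agent.SzNF.Shift
import Pool.Agent.SzNF.EnInt
import Pool.Agent.SzSP.Arch

/-!
Bound of the energy by the logarithm of the radius of any disc which contains the roots.
-/

open Polynomial MeasureTheory

namespace SzNF

theorem log_sub_le (R : ℝ) (hR : 0 < R) (x s : ℂ) (hxs : x ≠ s) :
    Real.log ‖x - s‖ ≤ Real.log (2 * R) + SzSP.lp R x + SzSP.lp R s := by
  have hpos : 0 < ‖x - s‖ := norm_pos_iff.2 (sub_ne_zero.2 hxs)
  have hexp : ∀ z : ℂ, ‖z‖ / R ≤ Real.exp (SzSP.lp R z) ∧ 1 ≤ Real.exp (SzSP.lp R z) := by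
    intro z
    refine ⟨?_, Real.one_le_exp (SzSP.lp_nonneg R z)⟩
    by_cases hz : ‖z‖ = 0
    · rw [hz, zero_div]; positivity
    · have : 0 < ‖z‖ / R := div_pos (lt_of_le_of_ne (norm_nonneg _) (Ne.symm hz)) hR
      calc ‖z‖ / R = Real.exp (Real.log (‖z‖ / R)) := (Real.exp_log this).symm
        _ ≤ _ := Real.exp_le_exp.2 (le_max_right _ _)
  obtain ⟨hx1, hx2⟩ := hexp x
  obtain ⟨hs1, hs2⟩ := hexp s
  rw [div_le_iff₀ hR] at hx1 hs1
  have h1 : ‖x - s‖ ≤ 2 * R * Real.exp (SzSP.lp R x) * Real.exp (SzSP.lp R s) := by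
    have := norm_sub_le x s
    nlinarith [mul_nonneg (mul_nonneg hR.le (Real.exp_pos (SzSP.lp R x)).le) (sub_nonneg.2 hs2),
      mul_nonneg (mul_nonneg hR.le (Real.exp_pos (SzSP.lp R s)).le) (sub_nonneg.2 hx2)]
  have h2 := Real.log_le_log hpos h1
  rw [Real.log_mul (by positivity) (by positivity), Real.log_mul (by positivity) (by positivity),
    Real.log_exp, Real.log_exp] at h2
  exact h2

theorem energy_le_zero (m n : ℕ) (hm : 2 ≤ m) (F : ℂ[X]) (hF : F.Monic) (hs : F.Separable)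
    (hn : F.natDegree = n) (hn1 : 1 ≤ n) (hmn : m.Coprime n) (hg : 1 ≤ genus m n)
    (e : (j : ℕ) → Fin (n * j / m) → ℂ[X]) (he : IsONB m n F e) (R : ℝ) (hR0 : 0 < R)
    (hroots : ∀ α ∈ F.roots, ‖α‖ ≤ R) :
    energy m n F e ≤ Real.log R + 3 * Real.log 2 + m ^ 3 * (n : ℝ) ^ 4 * 16 ^ n / genus m n := by
  have hm0 : (0 : ℝ) < m := by exact_mod_cast (by omega : 0 < m)
  have hg0 : (0 : ℝ) < genus m n := by exact_mod_cast hg
  obtain ⟨hint, hmass⟩ := rho_mass m n hm F hmn hg e he
  have hnn := rho_nonneg m n F e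
  have hin := en_inner m n hm F hF hs hn hn1 hmn e he
  have hout := en_outer m n hm F hF hs hn hn1 hmn e he
  set ρ : ℂ → ℝ := rho m n F e with hρ
  set a : ℝ := 2 / m with ha
  have ha0 : 0 < a := by positivity
  obtain ⟨hr1, hr2⟩ := SzSP.rad_int a R ha0 hR0
  set K : ℝ := m * (n : ℝ) ^ 4 * 16 ^ n / (genus m n * Real.pi * R ^ 2) with hK
  have hK0 : 0 ≤ K := by positivity
  set L0 : ℝ := Real.log 2 + m ^ 3 * (n : ℝ) ^ 4 * 16 ^ n / (2 * genus m n) with hL0
  have hlog2 : 0 ≤ Real.log 2 := Real.log_nonneg (by norm_num)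
  have hL00 : 0 ≤ L0 := by positivity
  have hmaj : ∀ s, SzSP.lp R s * ρ s ≤ Real.log 2 * ρ s + K * SzSP.rad a R ‖s‖ := by
    intro s
    rcases le_total ‖s‖ (2 * R) with h | h
    · have h1 : SzSP.lp R s ≤ Real.log 2 := by
        unfold SzSP.lp
        refine max_le hlog2 ?_
        by_cases hz : ‖s‖ = 0
        · rw [hz]; simpa using hlog2
        · have hz' : 0 < ‖s‖ := lt_of_le_of_ne (norm_nonneg _) (Ne.symm hz)
          refine Real.log_le_log (div_pos hz' hR0) ?_
          rw [div_le_iff₀ hR0]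
          exact h
      have h2 := mul_le_mul_of_nonneg_right h1 (hnn s)
      have h3 := mul_nonneg hK0 (SzSP.rad_nonneg a R ‖s‖ hR0)
      linarith
    · have h1 := rho_tail m n hm F hF hn hn1 hmn e he R hR0 hroots s h
      have h2 : R < ‖s‖ := by linarith
      have h3 : 1 < ‖s‖ / R := by rwa [one_lt_div hR0]
      have h4 : SzSP.lp R s = Real.log (‖s‖ / R) := by
        unfold SzSP.lp
        exact max_eq_right (Real.log_nonneg h3.le)
      have h5 : 0 ≤ Real.log 2 * ρ s := mul_nonneg hlog2 (hnn s)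
      have h6 : SzSP.lp R s * ρ s ≤ K * SzSP.rad a R ‖s‖ := by
        unfold SzSP.rad
        rw [if_pos h2, h4]
        have := mul_le_mul_of_nonneg_left h1 (Real.log_nonneg h3.le)
        calc Real.log (‖s‖ / R) * ρ s ≤ Real.log (‖s‖ / R) *
              (K * (‖s‖ / R) ^ (-(2 + 2 / (m : ℝ)))) := this
          _ = _ := by rw [ha]; ring
      linarith
  have hFi : Integrable (fun s => Real.log 2 * ρ s + K * SzSP.rad a R ‖s‖) :=
    (hint.const_mul _).add (hr1.const_mul K)
  have hhi : Integrable (fun s => SzSP.lp R s * ρ s) := by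
    refine hFi.mono' ?_ ?_
    · exact (SzSP.lp_meas R).aestronglyMeasurable.mul hint.aestronglyMeasurable
    · refine Filter.Eventually.of_forall fun s => ?_
      rw [Real.norm_of_nonneg (mul_nonneg (SzSP.lp_nonneg R s) (hnn s))]
      exact hmaj s
  have hhL : ∫ s, SzSP.lp R s * ρ s ≤ L0 := by
    refine (integral_mono hhi hFi hmaj).trans ?_
    rw [integral_add (hint.const_mul _) (hr1.const_mul K), integral_const_mul, integral_const_mul,
      hmass, hr2, hL0, hK, ha]
    apply le_of_eq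
    field_simp
  -- the inner integral
  have hinner : ∀ x : ℂ, ∫ s : ℂ, Real.log ‖x - s‖ * ρ s ≤
      Real.log (2 * R) + SzSP.lp R x + L0 := by
    intro x
    have h1 : Integrable (fun s => (Real.log (2 * R) + SzSP.lp R x) * ρ s + SzSP.lp R s * ρ s) :=
      (hint.const_mul _).add hhi
    have h2 : ∫ s : ℂ, Real.log ‖x - s‖ * ρ s ≤
        ∫ s, ((Real.log (2 * R) + SzSP.lp R x) * ρ s + SzSP.lp R s * ρ s) := by
      refine integral_mono_ae (hin x) h1 ?_
      have hae : ∀ᵐ s : ℂ, s ≠ x := by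
        rw [ae_iff]
        simp
      filter_upwards [hae] with s hs'
      have := mul_le_mul_of_nonneg_right (log_sub_le R hR0 x s (Ne.symm hs')) (hnn s)
      linarith
    rw [integral_add (hint.const_mul _) hhi, integral_const_mul, hmass] at h2
    linarith
  have houter : ∫ x : ℂ, (∫ s : ℂ, Real.log ‖x - s‖ * ρ s) * ρ x ≤
      Real.log (2 * R) + 2 * L0 := by
    have h1 : Integrable (fun x => (Real.log (2 * R) + L0) * ρ x + SzSP.lp R x * ρ x) :=
      (hint.const_mul _).add hhi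
    have h2 : ∫ x : ℂ, (∫ s : ℂ, Real.log ‖x - s‖ * ρ s) * ρ x ≤
        ∫ x, ((Real.log (2 * R) + L0) * ρ x + SzSP.lp R x * ρ x) := by
      refine integral_mono hout h1 fun x => ?_
      have := mul_le_mul_of_nonneg_right (hinner x) (hnn x)
      simp only
      linarith
    rw [integral_add (hint.const_mul _) hhi, integral_const_mul, hmass] at h2
    linarith
  have hfin : energy m n F e = ∫ x : ℂ, (∫ s : ℂ, Real.log ‖x - s‖ * ρ s) * ρ x := rfl
  rw [hfin]
  refine houter.trans (le_of_eq ?_)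
  rw [Real.log_mul (by norm_num) hR0.ne', hL0]
  field_simp
  ring

/-- The energy is bounded by the logarithm of the radius of any disc which contains the roots. -/
theorem energy_le (m n : ℕ) (hm : 2 ≤ m) (F : ℂ[X]) (hF : F.Monic) (hs : F.Separable)
    (hn : F.natDegree = n) (hn1 : 1 ≤ n) (hmn : m.Coprime n) (hg : 1 ≤ genus m n)
    (e : (j : ℕ) → Fin (n * j / m) → ℂ[X]) (he : IsONB m n F e) (R : ℝ) (hR0 : 0 < R) (b : ℂ)
    (hroots : ∀ α ∈ F.roots, ‖α - b‖ ≤ R) :
    energy m n F e ≤ Real.log R + 3 * Real.log 2 + m ^ 3 * (n : ℝ) ^ 4 * 16 ^ n / genus m n := by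
  rw [← energy_shift m n F e b]
  exact energy_le_zero m n hm (taylor b F) (monic_shift F hF b) (separable_shift F hs b)
    (by rw [natDegree_taylor, hn]) hn1 hmn hg _ (isONB_shift m n F e he b) R hR0
    (fun α hα => roots_shift F b α R hF hroots hα)

end SzNF
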