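import Mathlib

/-!
Cyclic covers X : y^m = f(x) of the line over number fields, f monic separable of degree n prime to
m: the stable Arakelov height of the point at infinity.

X is the smooth projective curve of genus g = (m-1)(n-1)/2 over the number field K, it has one
point at infinity, rational and totally ramified. Take integers a, b with b n - a m = 1; the
function w = x^a / y^b is a uniformiser at infinity.

The stable Arakelov height of the point at infinity is the degree of the restriction of the
relative dualizing sheaf (over a finite extension with semi-stable reduction, divided by the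
degree), that is h = - (1/[K:Q]) (sum_sigma log |dw|_Ar,sigma + sum_p sum_tau log |dw|_tau),
sigma through the embeddings of K in C, tau through those in C_p.
- Archimedean terms. The canonical form is mu = (1/g) sum (i/2) omega_k wedge conj omega_k over an
  orthonormal basis. An orthonormal basis is given by P dx / y^j, 1 <= j <= m-1, where P runs
  through an orthonormal basis of the polynomials of degree less than floor(n j / m) for
  m * integral P conj(Q) |f|^(-2j/m); so the image of mu in the x-plane has the density rho below.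
  Infinity is fixed by the automorphisms of the cover, hence
  log G(P,infinity) = (1/m) (I - U(x(P))), U(x) = integral log|x-s| rho(s), I = integral U rho,
  and - log |dw|_Ar = lim (log G(P,infinity) - log |w(P)|) = I / m.
- Terms at p. Over a finite extension with semi-stable reduction the residue class of infinity in
  the minimal regular model is an open disc, w = c t + ... in its parameter t, the term is
  - log |c|, and |c| is the largest absolute value of the first coefficient of w for rigid analytic
  maps of the open unit disc over C_p to X with centre mapped to infinity (g > 0).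
-/

open Polynomial MeasureTheory ComplexConjugate

namespace SzNF

/-- The genus of `y^m = f(x)`, `f` separable of degree `n` prime to `m`. -/
def genus (m n : ℕ) : ℕ := (m - 1) * (n - 1) / 2

/-- The weight `|y|^(-2j) = |F(z)|^(-2j/m)`. -/
noncomputable def wt (m : ℕ) (F : ℂ[X]) (j : ℕ) (z : ℂ) : ℝ :=
  ‖F.eval z‖ ^ (-(2 * (j : ℝ) / m))

/-- Orthonormal bases `e j` of the spaces of holomorphic differentials `P dx / y^j`
(`P` of degree less than `floor (n j / m)`) of `y^m = F(x)`, for `1 ≤ j ≤ m - 1`. -/
def IsONB (m n : ℕ) (F : ℂ[X]) (e : (j : ℕ) → Fin (n * j / m) → ℂ[X]) : Prop :=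
  ∀ j ∈ Finset.Ico 1 m, (∀ k, (e j k).degree < (n * j / m : ℕ)) ∧
    ∀ k l, (m : ℂ) * ∫ z : ℂ, (e j k).eval z * conj ((e j l).eval z) * (wt m F j z : ℂ)
      = if k = l then 1 else 0

/-- The density of the image of the canonical (Arakelov) measure of `y^m = F(x)` in the
`x`-plane. -/
noncomputable def rho (m n : ℕ) (F : ℂ[X]) (e : (j : ℕ) → Fin (n * j / m) → ℂ[X]) (z : ℂ) : ℝ :=
  ((m : ℝ) / genus m n) * ∑ j ∈ Finset.Ico 1 m, ∑ k, ‖(e j k).eval z‖ ^ 2 * wt m F j z

/-- The logarithmic energy of the image of the canonical measure. -/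
noncomputable def energy (m n : ℕ) (F : ℂ[X]) (e : (j : ℕ) → Fin (n * j / m) → ℂ[X]) : ℝ :=
  ∫ x : ℂ, (∫ s : ℂ, Real.log ‖x - s‖ * rho m n F e s) * rho m n F e x

section disc

variable {L : Type*} [NormedField L]

/-- The coefficients of the power series `U` are at most `1` in absolute value. -/
def Bdd (U : PowerSeries L) : Prop := ∀ k, ‖U.coeff k‖ ≤ 1

/-- `V ^ n * F (U / V)` for `F` of degree at most `n`. -/
noncomputable def homog (n : ℕ) (F : L[X]) (U V : PowerSeries L) : PowerSeries L :=
  ∑ i ∈ Finset.range (n + 1), PowerSeries.C (F.coeff i) * U ^ i * V ^ (n - i)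

/-- `U / V = (c t) ^ (-k) (1 + ...)`. -/
def Pole (c : L) (k : ℕ) (U V : PowerSeries L) : Prop :=
  V.order < (PowerSeries.C (c ^ k) * PowerSeries.X ^ k * U - V).order

/-- There is a rigid analytic map from the open unit disc over `L = ℂ_[p]` to `y^m = F(x)`, `F` of
degree `n`, centre mapped to infinity, given by `x = U/V = (c t)^(-m) (1 + ...)`,
`y = W/Z = (c t)^(-n) (1 + ...)` with bounded power series `U, V, W, Z`; in other words
`w = c t + ...`. -/
def IsDisc (m n : ℕ) (F : L[X]) (c : L) : Prop :=
  c ≠ 0 ∧ ∃ U V W Z : PowerSeries L, Bdd U ∧ Bdd V ∧ Bdd W ∧ Bdd Z ∧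
    W ^ m * V ^ n = Z ^ m * homog n F U V ∧ Pole c m U V ∧ Pole c n W Z

end disc

/-- The supremum of `log |c|` over these maps. -/
noncomputable def logRadius (p : ℕ) [Fact p.Prime] (m n : ℕ) (F : ℂ_[p][X]) : EReal :=
  ⨆ c ∈ {c : ℂ_[p] | IsDisc m n F c}, ((Real.log ‖c‖ : ℝ) : EReal)

/-- The largest distance of two roots of `F`. -/
noncomputable def spread {k : Type*} [NormedField k] (F : k[X]) : ℝ :=
  sSup {r : ℝ | ∃ a b : k, F.IsRoot a ∧ F.IsRoot b ∧ r = ‖a - b‖}

section numberField

variable (K : Type*) [Field K] [NumberField K]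

/-- The sum of the terms at the primes in `S`, with the sign changed. -/
noncomputable def finPart (m : ℕ) (f : K[X]) (S : Finset Nat.Primes) : EReal :=
  ∑ p ∈ S, haveI : Fact (p : ℕ).Prime := ⟨p.2⟩
    ∑ τ : K →+* ℂ_[(p : ℕ)], logRadius p m f.natDegree (f.map τ)

/-- The stable Arakelov height of the point at infinity of `y^m = f(x)` (limit over the finite sets
of primes). -/
noncomputable def height (m : ℕ) (f : K[X])
    (e : (K →+* ℂ) → (j : ℕ) → Fin (f.natDegree * j / m) → ℂ[X]) : EReal :=
  Filter.limsup (fun S : Finset Nat.Primes => ((1 / (Module.finrank ℚ K : ℝ) : ℝ) : EReal) *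
    ((((1 / (m : ℝ)) * ∑ σ : K →+* ℂ, energy m f.natDegree (f.map σ) (e σ) : ℝ) : EReal) -
      finPart K m f S)) Filter.atTop

/-- The (absolute logarithmic) projective Weil height of the differences of the roots of `f`. -/
noncomputable def branchHeight (f : K[X]) : ℝ :=
  (1 / (Module.finrank ℚ K : ℝ)) * (∑ σ : K →+* ℂ, Real.log (spread (f.map σ)) +
    ∑ᶠ p : Nat.Primes, haveI : Fact (p : ℕ).Prime := ⟨p.2⟩
      ∑ τ : K →+* ℂ_[(p : ℕ)], Real.log (spread (f.map τ)))

end numberField

end SzNF
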