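import Pool.Agent.SzNF.Hens
import Pool.Agent.SzSP.Disc

/-!
For almost all primes all differences of roots are units.
-/

open Polynomial

namespace SzNF

lemma norm_le_one_of_monic_root {k : Type*} [NormedField k] [IsUltrametricDist k] (P : k[X])
    (hP : P.Monic) (h : ∀ i, ‖P.coeff i‖ ≤ 1) (x : k) (hx : P.IsRoot x) : ‖x‖ ≤ 1 := by
  by_contra hlt
  push Not at hlt
  set d := P.natDegree with hd
  have hd0 : d ≠ 0 := by
    intro h0
    rw [eq_one_of_monic_natDegree_zero hP h0] at hx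
    simp [IsRoot] at hx
  have h1 : P.eval x = (∑ i ∈ Finset.range d, P.coeff i * x ^ i) + x ^ d := by
    rw [eval_eq_sum_range, Finset.sum_range_succ, ← hd]
    rw [show P.coeff d = 1 from hP.coeff_natDegree, one_mul]
  have h2 : x ^ d = -∑ i ∈ Finset.range d, P.coeff i * x ^ i := by
    rw [hx.eq_zero] at h1
    exact eq_neg_of_add_eq_zero_right h1.symm
  have h3 : ‖∑ i ∈ Finset.range d, P.coeff i * x ^ i‖ ≤ ‖x‖ ^ (d - 1) := by
    refine IsUltrametricDist.norm_sum_le_of_forall_le_of_nonneg (by positivity) fun i hi => ?_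
    rw [Finset.mem_range] at hi
    rw [norm_mul, norm_pow]
    calc ‖P.coeff i‖ * ‖x‖ ^ i ≤ 1 * ‖x‖ ^ (d - 1) :=
          mul_le_mul (h i) (pow_le_pow_right₀ hlt.le (by omega)) (by positivity) zero_le_one
      _ = _ := one_mul _
  have h4 : ‖x‖ ^ d ≤ ‖x‖ ^ (d - 1) := by
    rw [← norm_pow, h2, norm_neg]
    exact h3
  have h5 : ‖x‖ ^ (d - 1) < ‖x‖ ^ d := pow_lt_pow_right₀ hlt (by omega)
  linarith

lemma norm_int_le (p : ℕ) [Fact p.Prime] (z : ℤ) : ‖(z : ℂ_[p])‖ ≤ 1 := by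
  have h0 : algebraMap ℚ_[p] ℂ_[p] (z : ℚ_[p]) = (z : ℂ_[p]) := map_intCast _ z
  have h1 : ‖algebraMap ℚ_[p] ℂ_[p] (z : ℚ_[p])‖ = ‖(z : ℚ_[p])‖ := PadicComplex.norm_extends' p _
  rw [← h0, h1]
  exact Padic.norm_int_le_one z

lemma norm_int_eq (p : ℕ) [Fact p.Prime] (z : ℤ) (hz : ¬ (p : ℤ) ∣ z) : ‖(z : ℂ_[p])‖ = 1 := by
  have h0 : algebraMap ℚ_[p] ℂ_[p] (z : ℚ_[p]) = (z : ℂ_[p]) := map_intCast _ z
  have h1 : ‖algebraMap ℚ_[p] ℂ_[p] (z : ℚ_[p])‖ = ‖(z : ℚ_[p])‖ := PadicComplex.norm_extends' p _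
  rw [← h0, h1]
  refine le_antisymm (Padic.norm_int_le_one z) ?_
  by_contra h
  push Not at h
  exact hz (Padic.norm_intCast_lt_one_iff.1 h)

lemma finite_dvd (z : ℤ) (hz : z ≠ 0) : {p : Nat.Primes | ((p : ℕ) : ℤ) ∣ z}.Finite := by
  refine Set.Finite.of_injOn (f := fun p : Nat.Primes => (p : ℕ)) (t := (Finset.range (z.natAbs + 1)))
    ?_ ?_ (Finset.finite_toSet _)
  · intro p hp
    simp only [Set.mem_ofPred_eq] at hp
    have := Nat.le_of_dvd (Int.natAbs_pos.2 hz) (Int.natCast_dvd.1 hp)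
    simp only [Finset.coe_range, Set.mem_Iio]
    omega
  · intro a _ b _ h
    exact Subtype.ext h

/-- integrality outside a finite set of primes -/
lemma finite_not_le (K : Type*) [Field K] [NumberField K] (a : K) :
    {p : Nat.Primes | ¬ (haveI : Fact (p : ℕ).Prime := ⟨p.2⟩
      ∀ τ : K →+* ℂ_[(p : ℕ)], ‖τ a‖ ≤ 1)}.Finite := by
  have hal : IsAlgebraic ℤ a :=
    (IsFractionRing.isAlgebraic_iff ℤ ℚ K).2 (Algebra.IsAlgebraic.isAlgebraic a)
  obtain ⟨y, hy0, hy⟩ := hal.exists_integral_multiple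
  refine (finite_dvd y hy0).subset fun p hp => ?_
  simp only [Set.mem_ofPred_eq] at hp ⊢
  by_contra hnd
  apply hp
  have : Fact (p : ℕ).Prime := ⟨p.2⟩
  intro τ
  have h1 : ‖τ (y • a)‖ ≤ 1 := by
    obtain ⟨P, hPm, hP⟩ := hy
    refine norm_le_one_of_monic_root (P.map (Int.castRingHom ℂ_[(p : ℕ)])) (hPm.map _)
      (fun i => ?_) _ ?_
    · rw [coeff_map]
      exact norm_int_le (p : ℕ) _
    · rw [IsRoot, eval_map]
      have h2 := congrArg τ hP
      rw [hom_eval₂, map_zero] at h2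
      rw [← h2]
      congr 1
      exact RingHom.ext_int _ _
  have h3 : τ (y • a) = (y : ℂ_[(p : ℕ)]) * τ a := by
    rw [zsmul_eq_mul, map_mul, map_intCast]
  rw [h3, norm_mul, norm_int_eq (p : ℕ) y hnd, one_mul] at h1
  exact h1

lemma prod_le_single {ι : Type*} [DecidableEq ι] (s : Finset ι) (f : ι → ℝ) (a : ι) (ha : a ∈ s)
    (h0 : ∀ i ∈ s, 0 ≤ f i) (h1 : ∀ i ∈ s, f i ≤ 1) : ∏ i ∈ s, f i ≤ f a := by
  rw [← Finset.mul_prod_erase s f ha]
  have h2 : ∏ i ∈ s.erase a, f i ≤ 1 :=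
    Finset.prod_le_one (fun i hi => h0 i (Finset.mem_of_mem_erase hi))
      (fun i hi => h1 i (Finset.mem_of_mem_erase hi))
  have := h0 a ha
  nlinarith

/-- a product of the differences is small if all differences are -/
lemma det_lt_one {k : Type*} [NormedField k] (N : ℕ) (hN : 2 ≤ N) (v : Fin N → k) (s : ℝ)
    (hs : s < 1) (hle : ∀ i j, ‖v j - v i‖ ≤ s) : ‖(Matrix.vandermonde v).det‖ < 1 := by
  rw [Matrix.det_vandermonde, norm_prod]
  simp_rw [norm_prod]
  have hin : ∀ i ∈ (Finset.univ : Finset (Fin N)),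
      ∏ j ∈ Finset.Ioi i, ‖v j - v i‖ ≤ 1 := fun i _ =>
    Finset.prod_le_one (fun j _ => norm_nonneg _) (fun j _ => (hle i j).trans hs.le)
  let i0 : Fin N := ⟨0, by omega⟩
  let i1 : Fin N := ⟨1, by omega⟩
  calc ∏ i, ∏ j ∈ Finset.Ioi i, ‖v j - v i‖
      ≤ ∏ j ∈ Finset.Ioi i0, ‖v j - v i0‖ :=
        prod_le_single Finset.univ (fun i => ∏ j ∈ Finset.Ioi i, ‖v j - v i‖) i0
          (Finset.mem_univ _) (fun i _ => Finset.prod_nonneg fun j _ => norm_nonneg _) hin
    _ ≤ ‖v i1 - v i0‖ :=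
        prod_le_single (Finset.Ioi i0) (fun j => ‖v j - v i0‖) i1
          (Finset.mem_Ioi.2 (Fin.lt_def.2 (by simp [i0, i1]))) (fun j _ => norm_nonneg _)
          (fun j _ => (hle i0 j).trans hs.le)
    _ ≤ s := hle i0 i1
    _ < 1 := hs

/-- enumeration of the roots -/
lemma exists_roots {k : Type*} [Field k] [IsAlgClosed k] (F : k[X]) (hF : F.Monic) :
    ∃ v : Fin F.natDegree → k, F = ∏ i, (X - C (v i)) := by
  obtain ⟨l, hl⟩ := Quot.exists_rep F.roots
  have hl' : (l : Multiset k) = F.roots := hl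
  have hlen : l.length = F.natDegree := by
    rw [(IsAlgClosed.splits F).natDegree_eq_card_roots, ← hl', Multiset.coe_card]
  refine ⟨fun i => l.get (i.cast hlen.symm), ?_⟩
  have h1 : ∏ i : Fin F.natDegree, (X - C (l.get (i.cast hlen.symm))) =
      ∏ i : Fin l.length, (X - C (l.get i)) :=
    Fintype.prod_equiv (finCongr hlen.symm) _ _ fun i => rfl
  have h2 : ∏ i : Fin l.length, (X - C (l.get i)) = (l.map fun a => X - C a).prod := by
    have := Fin.prod_univ_fun_getElem l (fun a => X - C a)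
    simpa using this
  have h3 : (l.map fun a => X - C a).prod = F := by
    conv_rhs => rw [(IsAlgClosed.splits F).eq_prod_roots_of_monic hF, ← hl']
    rfl
  rw [h1, h2, h3]

lemma spread_eq_one {k : Type*} [NormedField k] [IsAlgClosed k] [IsUltrametricDist k] (F : k[X])
    (hF : F.Monic) (hs : F.Separable) (hn : 2 ≤ F.natDegree) (h : ∀ i, ‖F.coeff i‖ ≤ 1)
    (hd : 1 ≤ ‖F.discr‖) : spread F = 1 := by
  obtain ⟨h1, ⟨a, b, ha, hb, hab⟩, h3⟩ := spread_spec F hF hs hn
  refine le_antisymm ?_ ?_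
  · rw [← hab]
    have h4 := norm_le_one_of_monic_root F hF h a ha
    have h5 := norm_le_one_of_monic_root F hF h b hb
    rw [sub_eq_add_neg]
    refine (IsUltrametricDist.norm_add_le_max a (-b)).trans (max_le h4 ?_)
    rwa [norm_neg]
  · by_contra hlt
    push Not at hlt
    obtain ⟨v, hv⟩ := exists_roots F hF
    have hroot : ∀ i, F.IsRoot (v i) := by
      intro i
      rw [IsRoot, hv, eval_prod]
      exact Finset.prod_eq_zero (Finset.mem_univ i) (by simp)
    have hdisc := SzSP.discr_eq_prod F.natDegree v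
    rw [← hv] at hdisc
    rw [hdisc, norm_pow] at hd
    have hdet := det_lt_one F.natDegree hn v (spread F) hlt
      (fun i j => h3 _ _ (hroot j) (hroot i))
    have : ‖(Matrix.vandermonde v).det‖ ^ 2 < 1 :=
      pow_lt_one₀ (norm_nonneg _) hdet (by norm_num)
    linarith

theorem fin_support (K : Type*) [Field K] [NumberField K] (f : K[X]) (hf : f.Monic)
    (hs : f.Separable) (hn : 2 ≤ f.natDegree) :
    {p : Nat.Primes | (haveI : Fact (p : ℕ).Prime := ⟨p.2⟩
      ∑ τ : K →+* ℂ_[(p : ℕ)], Real.log (spread (f.map τ))) ≠ 0}.Finite := by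
  have hd0 : f.discr ≠ 0 := (SzSP.discr_ne_zero_iff hf).2 hs
  refine ((Set.Finite.biUnion (Finset.finite_toSet (Finset.range (f.natDegree + 1)))
    (fun i _ => finite_not_le K (f.coeff i))).union (finite_not_le K (f.discr)⁻¹)).subset ?_
  intro p hp
  by_contra hnot
  simp only [Set.mem_union, Set.mem_iUnion, Set.mem_ofPred_eq, not_or, not_exists, not_not] at hnot
  obtain ⟨h1, h2⟩ := hnot
  apply hp
  have : Fact (p : ℕ).Prime := ⟨p.2⟩
  refine Finset.sum_eq_zero fun τ _ => ?_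
  have h3 : spread (f.map τ) = 1 := by
    refine spread_eq_one (f.map τ) (hf.map τ) (hs.map) (by rwa [hf.natDegree_map]) (fun i => ?_) ?_
    · rw [coeff_map]
      by_cases hi : i ≤ f.natDegree
      · exact h1 i (by simp; omega) τ
      · rw [coeff_eq_zero_of_natDegree_lt (by omega), map_zero, norm_zero]
        exact zero_le_one
    · rw [SzSP.discr_map τ hf]
      have h4 := h2 τ
      rw [map_inv₀, norm_inv] at h4
      have h5 : 0 < ‖τ f.discr‖ := norm_pos_iff.2 ((map_ne_zero τ).2 hd0)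
      rwa [inv_le_one₀ h5] at h4
  rw [h3, Real.log_one]

end SzNF
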