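import Pool.Agent.SzNF.Defs
import Pool.Agent.SzSP.Hens

/-!
Lower bound of the p-adic radius by the spread of the roots.
-/

open Polynomial

namespace SzNF

theorem spread_spec {k : Type*} [NormedField k] [IsAlgClosed k] (F : k[X]) (hF : F.Monic)
    (hs : F.Separable) (hn : 2 ≤ F.natDegree) :
    0 < spread F ∧ (∃ a b : k, F.IsRoot a ∧ F.IsRoot b ∧ ‖a - b‖ = spread F) ∧
      ∀ a b : k, F.IsRoot a → F.IsRoot b → ‖a - b‖ ≤ spread F := by
  classical
  have h0 : F ≠ 0 := hF.ne_zero
  have hroot : ∀ a : k, F.IsRoot a ↔ a ∈ F.roots.toFinset := by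
    intro a
    rw [Multiset.mem_toFinset, Polynomial.mem_roots h0]
  have hcard : 1 < F.roots.toFinset.card := by
    rw [Multiset.toFinset_card_of_nodup (Polynomial.nodup_roots hs),
      ← (IsAlgClosed.splits F).natDegree_eq_card_roots]
    omega
  obtain ⟨a0, ha0, b0, hb0, hab⟩ := Finset.one_lt_card.mp hcard
  set T : Set ℝ := {r : ℝ | ∃ a b : k, F.IsRoot a ∧ F.IsRoot b ∧ r = ‖a - b‖} with hT
  have hTfin : T.Finite := by
    have : T ⊆ ((F.roots.toFinset ×ˢ F.roots.toFinset).image fun q : k × k => ‖q.1 - q.2‖) := by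
      rintro r ⟨a, b, ha, hb, rfl⟩
      rw [Finset.coe_image]
      exact ⟨(a, b), by simp only [Finset.coe_product, Set.mem_prod, Finset.mem_coe]; exact ⟨(hroot a).mp ha, (hroot b).mp hb⟩, rfl⟩
    exact (Finset.finite_toSet _).subset this
  have hTne : T.Nonempty := ⟨‖a0 - b0‖, a0, b0, (hroot _).mpr ha0, (hroot _).mpr hb0, rfl⟩
  have hub : ∀ a b : k, F.IsRoot a → F.IsRoot b → ‖a - b‖ ≤ spread F := by
    intro a b ha hb
    exact le_csSup hTfin.bddAbove ⟨a, b, ha, hb, rfl⟩
  refine ⟨?_, ?_, hub⟩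
  · exact lt_of_lt_of_le (norm_pos_iff.mpr (sub_ne_zero.mpr hab))
      (hub a0 b0 ((hroot _).mpr ha0) ((hroot _).mpr hb0))
  · have := hTne.csSup_mem hTfin
    obtain ⟨a, b, ha, hb, h⟩ := this
    exact ⟨a, b, ha, hb, h.symm⟩

/-- The integral series over any commutative ring. -/
theorem exists_series_gen {R : Type*} [CommRing R] (c : ℕ → R) (n m a b : ℕ) (hc : c n = 1)
    (hm : 1 ≤ m) (hn : 1 ≤ n) (hab : b * n = a * m + 1) :
    ∃ v : PowerSeries R, PowerSeries.constantCoeff v = 1 ∧
      v ^ (a * m) = ∑ i ∈ Finset.range (n + 1),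
        PowerSeries.C (c i) * v ^ (b * i) * PowerSeries.X ^ (m * (n - i)) := by
  classical
  have hb : 1 ≤ b := by
    rcases Nat.eq_zero_or_pos b with h | h
    · subst h; simp at hab
    · exact h
  have hXmem : ∀ k : ℕ, 1 ≤ k → (PowerSeries.X ^ k : PowerSeries R) ∈
      Ideal.span {(PowerSeries.X : PowerSeries R)} := by
    intro k hk
    exact Ideal.pow_mem_of_mem _ (Ideal.mem_span_singleton_self _) k hk
  have hsm : ∀ i ∈ Finset.range n, ∀ w : PowerSeries R,
      (PowerSeries.C (c i) * PowerSeries.X ^ (m * (n - i)) : PowerSeries R) * w ∈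
      Ideal.span {(PowerSeries.X : PowerSeries R)} := by
    intro i hi w
    have hi' := Finset.mem_range.mp hi
    have h1 : 1 ≤ m * (n - i) := Nat.mul_pos hm (by omega)
    exact Ideal.mul_mem_right _ _ (Ideal.mul_mem_left _ _ (hXmem _ h1))
  set r : (PowerSeries R)[X] := -X ^ (a * m) + ∑ i ∈ Finset.range n,
    C (PowerSeries.C (c i) * PowerSeries.X ^ (m * (n - i)) : PowerSeries R) *
      X ^ (b * i) with hr
  have hrdeg : r.degree < ((a * m + 1 : ℕ) : WithBot ℕ) := by
    rw [← Polynomial.mem_degreeLT]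
    refine Submodule.add_mem _ (Submodule.neg_mem _ ?_) (Submodule.sum_mem _ fun i hi => ?_)
    · rw [Polynomial.mem_degreeLT]
      refine lt_of_le_of_lt (Polynomial.degree_X_pow_le _) ?_
      exact_mod_cast Nat.lt_succ_self _
    · rw [Polynomial.mem_degreeLT]
      refine lt_of_le_of_lt (Polynomial.degree_C_mul_X_pow_le _ _) ?_
      have hi' := Finset.mem_range.mp hi
      have : b * i < a * m + 1 := by
        rw [← hab]
        exact Nat.mul_lt_mul_of_pos_left hi' hb
      exact_mod_cast this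
  have hmonic : (X ^ (a * m + 1) + r).Monic := Polynomial.monic_X_pow_add hrdeg
  have heval : ∀ v : PowerSeries R, (X ^ (a * m + 1) + r).eval v =
      v ^ (a * m + 1) - v ^ (a * m) + ∑ i ∈ Finset.range n,
        (PowerSeries.C (c i) * PowerSeries.X ^ (m * (n - i))) * v ^ (b * i) := by
    intro v
    simp only [hr, Polynomial.eval_add, Polynomial.eval_pow, Polynomial.eval_X,
      Polynomial.eval_neg, Polynomial.eval_finsetSum, Polynomial.eval_mul, Polynomial.eval_C]
    ring
  have h0 : (X ^ (a * m + 1) + r).eval 1 ∈ Ideal.span {(PowerSeries.X : PowerSeries R)} := by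
    rw [heval]
    simp only [one_pow, sub_self, zero_add]
    exact Ideal.sum_mem _ fun i hi => hsm i hi 1
  have h1 : (X ^ (a * m + 1) + r).derivative.eval 1 - 1 ∈
      Ideal.span {(PowerSeries.X : PowerSeries R)} := by
    have : (X ^ (a * m + 1) + r).derivative.eval 1 - 1 = ∑ i ∈ Finset.range n,
        (PowerSeries.C (c i) * PowerSeries.X ^ (m * (n - i))) *
          ((b * i : ℕ) : PowerSeries R) := by
      simp only [hr, Polynomial.derivative_add, Polynomial.derivative_neg,
        Polynomial.derivative_X_pow, Polynomial.derivative_sum, Polynomial.derivative_C_mul,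
        Polynomial.eval_add, Polynomial.eval_neg, Polynomial.eval_finsetSum,
        Polynomial.eval_mul, Polynomial.eval_C, Polynomial.eval_pow, Polynomial.eval_X, one_pow,
        mul_one]
      push_cast
      ring
    rw [this]
    exact Ideal.sum_mem _ fun i hi => hsm i hi _
  have hunit : IsUnit (Ideal.Quotient.mk (Ideal.span {(PowerSeries.X : PowerSeries R)})
      ((X ^ (a * m + 1) + r).derivative.eval 1)) := by
    have : Ideal.Quotient.mk (Ideal.span {(PowerSeries.X : PowerSeries R)})
      ((X ^ (a * m + 1) + r).derivative.eval 1) = Ideal.Quotient.mk _ 1 := by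
      rw [Ideal.Quotient.eq]
      exact h1
    rw [this, map_one]
    exact isUnit_one
  obtain ⟨v, hv, hv1⟩ := HenselianRing.is_henselian
    (I := Ideal.span {(PowerSeries.X : PowerSeries R)}) _ hmonic 1 h0 hunit
  refine ⟨v, ?_, ?_⟩
  · rw [Ideal.mem_span_singleton, PowerSeries.X_dvd_iff] at hv1
    rw [map_sub, map_one, sub_eq_zero] at hv1
    exact hv1
  · have h2 : (X ^ (a * m + 1) + r).eval v = 0 := hv
    rw [heval] at h2
    rw [Finset.sum_range_succ]
    rw [hc, hab, Nat.sub_self, mul_zero, pow_zero, mul_one, map_one, one_mul]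
    have h3 : ∑ i ∈ Finset.range n,
        PowerSeries.C (c i) * v ^ (b * i) * PowerSeries.X ^ (m * (n - i)) =
        ∑ i ∈ Finset.range n,
        (PowerSeries.C (c i) * PowerSeries.X ^ (m * (n - i))) * v ^ (b * i) :=
      Finset.sum_congr rfl fun i _ => by ring
    rw [h3]
    linear_combination -h2

/-- Homogenised product of linear factors. -/
theorem homog_prod {k D : Type*} [Field k] [CommRing D] [IsDomain D] (φ : k →+* D) (S : Multiset k)
    (A B : D) :
    ∑ i ∈ Finset.range (Multiset.card S + 1),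
      φ (((S.map fun α => (X - C α : k[X])).prod).coeff i) * A ^ i * B ^ (Multiset.card S - i) =
      (S.map fun α => A - φ α * B).prod := by
  have key : ((((S.map fun α => (X - C α : k[X])).prod).map φ).scaleRoots B) =
      (S.map fun α => (X - C (φ α * B) : D[X])).prod := by
    induction S using Multiset.induction_on with
    | empty => simp
    | cons a S ih =>
      rw [Multiset.map_cons, Multiset.prod_cons, Polynomial.map_mul,
        Polynomial.mul_scaleRoots_of_noZeroDivisors, ih, Multiset.map_cons, Multiset.prod_cons,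
        Polynomial.map_sub, Polynomial.map_X, Polynomial.map_C, Polynomial.X_sub_C_scaleRoots]
  have hdeg : ((S.map fun α => (X - C α : k[X])).prod).natDegree = Multiset.card S := by
    rw [Polynomial.natDegree_multiset_prod_X_sub_C_eq_card]
  have h := congrArg (Polynomial.eval A) key
  rw [Polynomial.eval_multiset_prod, Multiset.map_map] at h
  rw [Polynomial.eval_eq_sum_range, Polynomial.natDegree_scaleRoots, Polynomial.natDegree_map,
    hdeg] at h
  simp only [Polynomial.coeff_scaleRoots, Polynomial.coeff_map, Polynomial.natDegree_map,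
    hdeg] at h
  have h2 : (S.map fun α => A - φ α * B).prod =
      (S.map ((Polynomial.eval A) ∘ fun α => (X - C (φ α * B) : D[X]))).prod := by
    congr 1
    refine Multiset.map_congr rfl fun α _ => ?_
    simp
  rw [h2, ← h]
  refine Finset.sum_congr rfl fun i _ => by ring

theorem ord_aux {K : Type*} [Field K] (κ : K) (hκ : κ ≠ 0) (k : ℕ) (u : PowerSeries K)
    (hu : PowerSeries.constantCoeff u = 0) :
    (PowerSeries.C κ * PowerSeries.X ^ k : PowerSeries K).order <
      (PowerSeries.C κ * PowerSeries.X ^ k * u).order := by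
  have h1 : (PowerSeries.C κ * PowerSeries.X ^ k : PowerSeries K).order = k := by
    rw [PowerSeries.order_mul, PowerSeries.order_X_pow]
    have : (PowerSeries.C κ : PowerSeries K).order = 0 := by
      have hc : PowerSeries.coeff 0 (PowerSeries.C κ) ≠ 0 := by simpa using hκ
      have := PowerSeries.order_le 0 hc
      simpa using this
    rw [this, zero_add]
  rw [h1]
  obtain ⟨w, hw⟩ := PowerSeries.X_dvd_iff.mpr hu
  rw [hw]
  have h3 : (PowerSeries.X : PowerSeries K) ^ (k + 1) ∣
      PowerSeries.C κ * PowerSeries.X ^ k * (PowerSeries.X * w) := ⟨PowerSeries.C κ * w, by ring⟩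
  have h4 : ((k + 1 : ℕ) : ℕ∞) ≤
      (PowerSeries.C κ * PowerSeries.X ^ k * (PowerSeries.X * w)).order :=
    PowerSeries.nat_le_order _ _ (PowerSeries.X_pow_dvd_iff.mp h3)
  refine lt_of_lt_of_le ?_ h4
  exact_mod_cast Nat.lt_succ_self k

/-- The elements of norm at most one. -/
def unitBall (p : ℕ) [Fact p.Prime] : Subring ℂ_[p] where
  carrier := {x | ‖x‖ ≤ 1}
  mul_mem' := by
    intro x y hx hy
    simp only [Set.mem_ofPred_eq] at *
    rw [norm_mul]
    exact mul_le_one₀ hx (norm_nonneg _) hy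
  one_mem' := by simp
  add_mem' := by
    intro x y hx hy
    simp only [Set.mem_ofPred_eq] at *
    exact (IsUltrametricDist.norm_add_le_max x y).trans (max_le hx hy)
  zero_mem' := by simp
  neg_mem' := by
    intro x hx
    simp only [Set.mem_ofPred_eq] at *
    rwa [norm_neg]

theorem exists_small (p : ℕ) [Fact p.Prime] (M : ℝ) :
    ∃ κ : ℂ_[p], κ ≠ 0 ∧ ∀ x : ℂ_[p], ‖x‖ ≤ M → ‖κ * x‖ ≤ 1 := by
  obtain ⟨c, hc0, hc1⟩ := NormedField.exists_norm_lt ℂ_[p] (show (0 : ℝ) < 1 / (|M| + 1) by positivity)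
  refine ⟨c, norm_pos_iff.mp hc0, fun x hx => ?_⟩
  rw [norm_mul]
  have h1 : ‖x‖ ≤ |M| + 1 := by linarith [le_abs_self M]
  calc ‖c‖ * ‖x‖ ≤ (1 / (|M| + 1)) * (|M| + 1) :=
        mul_le_mul hc1.le h1 (norm_nonneg _) (by positivity)
    _ = 1 := by field_simp

theorem logRadius_ge (p : ℕ) [Fact p.Prime] (m n : ℕ) (hm : 1 ≤ m) (F : ℂ_[p][X])
    (hF : F.Monic) (hs : F.Separable) (hn : F.natDegree = n) (hn2 : 2 ≤ n) (hmn : m.Coprime n) :
    ((-(1 / (m : ℝ)) * Real.log (spread F) : ℝ) : EReal) ≤ logRadius p m n F := by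
  classical
  obtain ⟨hpos, ⟨a1, b1, ha1, hb1, hab1⟩, hub⟩ := spread_spec F hF hs (by omega)
  obtain ⟨a, b, hab⟩ : ∃ a b : ℕ, b * n = a * m + 1 := by
    rcases Nat.lt_or_ge 1 m with h | h
    · obtain ⟨b, _, hb⟩ := Nat.exists_mul_mod_eq_one_of_coprime hmn.symm h
      refine ⟨(n * b) / m, b, ?_⟩
      have := Nat.div_add_mod (n * b) m
      rw [hb] at this
      rw [mul_comm b, mul_comm _ m]
      exact this.symm
    · have : m = 1 := by omega
      subst this
      exact ⟨n - 1, 1, by omega⟩
  set lam : ℂ_[p] := a1 - b1 with hlam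
  have hlam0 : lam ≠ 0 := by
    rw [← norm_pos_iff, hab1]; exact hpos
  obtain ⟨μ, hμ⟩ := IsAlgClosed.exists_pow_nat_eq lam (show 0 < m by omega)
  have hμ0 : μ ≠ 0 := by
    rintro rfl
    rw [zero_pow (by omega)] at hμ
    exact hlam0 hμ.symm
  have hFprod : F = (F.roots.map fun α => (X - C α : ℂ_[p][X])).prod :=
    (IsAlgClosed.splits F).eq_prod_roots_of_monic hF
  have hcard : Multiset.card F.roots = n := by
    rw [← (IsAlgClosed.splits F).natDegree_eq_card_roots, hn]
  -- the scaled roots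
  have hball : ∀ α ∈ F.roots, (α - a1) / lam ∈ unitBall p := by
    intro α hα
    change ‖(α - a1) / lam‖ ≤ 1
    rw [norm_div, hab1, div_le_one hpos]
    exact hub α a1 ((Polynomial.mem_roots hF.ne_zero).mp hα) ha1
  set S : Multiset ℂ_[p] := F.roots.map fun α => (α - a1) / lam with hS
  have hScard : Multiset.card S = n := by rw [hS, Multiset.card_map, hcard]
  have hSmem : ∀ β ∈ S, β ∈ unitBall p := by
    intro β hβ
    rw [hS, Multiset.mem_map] at hβ
    obtain ⟨α, hα, rfl⟩ := hβ
    exact hball α hα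
  set P : ℂ_[p][X] := (S.map fun β => (X - C β : ℂ_[p][X])).prod with hP
  have hPlift : ∀ i, P.coeff i ∈ unitBall p := by
    have : P ∈ Polynomial.lifts (unitBall p).subtype := by
      rw [hP]
      refine Subsemiring.multiset_prod_mem _ _ ?_
      intro q hq
      rw [Multiset.mem_map] at hq
      obtain ⟨β, hβ, rfl⟩ := hq
      refine Subsemiring.mem_carrier.mpr ?_
      refine (Polynomial.lifts_iff_coeff_lifts _).mpr ?_
      intro i
      rw [Polynomial.coeff_sub, Polynomial.coeff_X, Polynomial.coeff_C]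
      refine ⟨(if 1 = i then 1 else 0) - (if i = 0 then ⟨β, hSmem β hβ⟩ else 0), ?_⟩
      rw [map_sub]
      congr 1
      · split_ifs <;> simp
      · split_ifs <;> simp
    intro i
    obtain ⟨x, hx⟩ := (Polynomial.lifts_iff_coeff_lifts _).mp this i
    rw [← hx]
    exact x.2
  have hPmonic : P.coeff n = 1 := by
    have h1 : P.Monic := by
      rw [hP]
      exact Polynomial.monic_multiset_prod_of_monic _ _ fun β _ => Polynomial.monic_X_sub_C β
    have h2 : P.natDegree = n := by
      rw [hP, Polynomial.natDegree_multiset_prod_X_sub_C_eq_card, hScard]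
    have := h1.coeff_natDegree
    rwa [h2] at this
  obtain ⟨v0, hv0, hv⟩ := exists_series_gen (R := unitBall p)
    (fun i => ⟨P.coeff i, hPlift i⟩) n m a b (by
      apply Subtype.ext
      simpa using hPmonic) hm (by omega) hab
  set v : PowerSeries ℂ_[p] := PowerSeries.map (unitBall p).subtype v0 with hvdef
  have hvc : PowerSeries.constantCoeff v = 1 := by
    rw [hvdef, ← PowerSeries.coeff_zero_eq_constantCoeff_apply, PowerSeries.coeff_map,
      PowerSeries.coeff_zero_eq_constantCoeff_apply, hv0]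
    simp
  have hvnorm : ∀ (j k : ℕ), ‖(v ^ j).coeff k‖ ≤ 1 := by
    intro j k
    rw [hvdef, ← map_pow, PowerSeries.coeff_map]
    exact ((v0 ^ j).coeff k).2
  have hveq : v ^ (a * m) = ∑ i ∈ Finset.range (n + 1),
      PowerSeries.C (P.coeff i) * v ^ (b * i) * PowerSeries.X ^ (m * (n - i)) := by
    have h := congrArg (PowerSeries.map (unitBall p).subtype) hv
    rw [map_pow, map_sum] at h
    rw [hvdef, h]
    refine Finset.sum_congr rfl fun i _ => ?_
    rw [map_mul, map_mul, PowerSeries.map_C, map_pow, map_pow, PowerSeries.map_X]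
    rfl
  -- the homogenised equation
  have hhom : ∑ i ∈ Finset.range (n + 1), PowerSeries.C (F.coeff i) *
      (PowerSeries.C a1 * PowerSeries.X ^ m + PowerSeries.C lam * v ^ b) ^ i *
      (PowerSeries.X ^ m) ^ (n - i) = PowerSeries.C (lam ^ n) * v ^ (a * m) := by
    have h1 := homog_prod (PowerSeries.C : ℂ_[p] →+* PowerSeries ℂ_[p]) F.roots
      (PowerSeries.C a1 * PowerSeries.X ^ m + PowerSeries.C lam * v ^ b) (PowerSeries.X ^ m)
    rw [← hFprod, hcard] at h1
    rw [h1]
    have h2 := homog_prod (PowerSeries.C : ℂ_[p] →+* PowerSeries ℂ_[p]) S (v ^ b) (PowerSeries.X ^ m)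
    rw [← hP, hScard] at h2
    have h3 : v ^ (a * m) = (S.map fun α => v ^ b - PowerSeries.C α * PowerSeries.X ^ m).prod := by
      rw [← h2, hveq]
      refine Finset.sum_congr rfl fun i _ => ?_
      rw [pow_mul, pow_mul]
    rw [h3, hS, Multiset.map_map]
    have h4 : (PowerSeries.C (lam ^ n) : PowerSeries ℂ_[p]) =
        (F.roots.map fun _ => (PowerSeries.C lam : PowerSeries ℂ_[p])).prod := by
      rw [Multiset.map_const', Multiset.prod_replicate, hcard, map_pow]
    rw [h4, ← Multiset.prod_map_mul]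
    congr 1
    refine Multiset.map_congr rfl fun α _ => ?_
    have h5 : (PowerSeries.C lam : PowerSeries ℂ_[p]) * PowerSeries.C ((α - a1) / lam) =
        PowerSeries.C α - PowerSeries.C a1 := by
      rw [← map_mul, ← map_sub, mul_div_cancel₀ _ hlam0]
    simp only [Function.comp_apply]
    linear_combination (PowerSeries.X ^ m) * h5
  -- scaling constants
  obtain ⟨κ, hκ0, hκ⟩ := exists_small p (max (max 1 ‖a1‖) (max ‖lam‖ ‖μ ^ n‖))
  have hκ1 : ‖κ‖ ≤ 1 := by
    have := hκ 1 (by simp)
    simpa using this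
  have hκa : ‖κ * a1‖ ≤ 1 := hκ a1 (by simp)
  have hκl : ‖κ * lam‖ ≤ 1 := hκ lam (by simp)
  have hκm : ‖κ * μ ^ n‖ ≤ 1 := hκ (μ ^ n) (by simp)
  have hXn : ∀ (x : ℂ_[p]) (j k : ℕ), ‖x‖ ≤ 1 →
      ‖(PowerSeries.C x * PowerSeries.X ^ j : PowerSeries ℂ_[p]).coeff k‖ ≤ 1 := by
    intro x j k hx
    rw [PowerSeries.coeff_C_mul, PowerSeries.coeff_X_pow]
    split_ifs
    · simpa using hx
    · simp
  have hVn : ∀ (x : ℂ_[p]) (j k : ℕ), ‖x‖ ≤ 1 →
      ‖(PowerSeries.C x * v ^ j : PowerSeries ℂ_[p]).coeff k‖ ≤ 1 := by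
    intro x j k hx
    rw [PowerSeries.coeff_C_mul, norm_mul]
    exact mul_le_one₀ hx (norm_nonneg _) (hvnorm j k)
  have hdisc : IsDisc m n F μ⁻¹ := by
    refine ⟨inv_ne_zero hμ0,
      PowerSeries.C (κ * a1) * PowerSeries.X ^ m + PowerSeries.C (κ * lam) * v ^ b,
      PowerSeries.C κ * PowerSeries.X ^ m, PowerSeries.C (κ * μ ^ n) * v ^ a,
      PowerSeries.C κ * PowerSeries.X ^ n, ?_, fun k => hXn _ _ _ hκ1,
      fun k => hVn _ _ _ hκm, fun k => hXn _ _ _ hκ1, ?_, ?_, ?_⟩
    · intro k
      rw [map_add]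
      exact (IsUltrametricDist.norm_add_le_max _ _).trans
        (max_le (hXn _ _ _ hκa) (hVn _ _ _ hκl))
    · unfold homog
      have h6 : ∑ i ∈ Finset.range (n + 1), PowerSeries.C (F.coeff i) *
          (PowerSeries.C (κ * a1) * PowerSeries.X ^ m + PowerSeries.C (κ * lam) * v ^ b) ^ i *
          (PowerSeries.C κ * PowerSeries.X ^ m) ^ (n - i) =
          PowerSeries.C κ ^ n * (PowerSeries.C (lam ^ n) * v ^ (a * m)) := by
        rw [← hhom, Finset.mul_sum]
        refine Finset.sum_congr rfl fun i hi => ?_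
        have hi' : i ≤ n := by
          have := Finset.mem_range.mp hi
          omega
        have h7 : (PowerSeries.C κ : PowerSeries ℂ_[p]) ^ n =
            PowerSeries.C κ ^ i * PowerSeries.C κ ^ (n - i) := by
          rw [← pow_add]; congr 1; omega
        have h8 : (PowerSeries.C (κ * a1) * PowerSeries.X ^ m + PowerSeries.C (κ * lam) * v ^ b :
            PowerSeries ℂ_[p]) = PowerSeries.C κ *
            (PowerSeries.C a1 * PowerSeries.X ^ m + PowerSeries.C lam * v ^ b) := by
          rw [map_mul, map_mul]; ring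
        rw [h7, h8, mul_pow, mul_pow]
        ring
      rw [h6]
      have h9 : (PowerSeries.C (κ * μ ^ n) : PowerSeries ℂ_[p]) ^ m =
          PowerSeries.C κ ^ m * PowerSeries.C (lam ^ n) := by
        rw [← map_pow, ← map_pow, ← map_mul]
        congr 1
        rw [mul_pow, ← pow_mul, mul_comm n m, pow_mul, hμ]
      rw [mul_pow, h9, ← pow_mul]
      ring
    · unfold Pole
      have h10 : PowerSeries.C ((μ⁻¹) ^ m) * PowerSeries.X ^ m *
          (PowerSeries.C (κ * a1) * PowerSeries.X ^ m + PowerSeries.C (κ * lam) * v ^ b) -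
          PowerSeries.C κ * PowerSeries.X ^ m = PowerSeries.C κ * PowerSeries.X ^ m *
          (PowerSeries.C (a1 / lam) * PowerSeries.X ^ m + (v ^ b - 1)) := by
        have h11 : (PowerSeries.C ((μ⁻¹) ^ m) : PowerSeries ℂ_[p]) * PowerSeries.C lam = 1 := by
          rw [← map_mul, inv_pow, hμ, inv_mul_cancel₀ hlam0, map_one]
        have h12 : (PowerSeries.C ((μ⁻¹) ^ m) : PowerSeries ℂ_[p]) * PowerSeries.C a1 =
            PowerSeries.C (a1 / lam) := by
          rw [← map_mul, inv_pow, hμ]
          congr 1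
          field_simp
        rw [map_mul, map_mul]
        linear_combination (PowerSeries.C κ * PowerSeries.X ^ m * v ^ b) * h11 +
          (PowerSeries.C κ * PowerSeries.X ^ m * PowerSeries.X ^ m) * h12
      rw [h10]
      refine ord_aux κ hκ0 m _ ?_
      rw [map_add, map_mul, map_pow, PowerSeries.constantCoeff_X, zero_pow (by omega), mul_zero,
        zero_add, map_sub, map_pow, hvc]
      simp
    · unfold Pole
      have h13 : PowerSeries.C ((μ⁻¹) ^ n) * PowerSeries.X ^ n *
          (PowerSeries.C (κ * μ ^ n) * v ^ a) - PowerSeries.C κ * PowerSeries.X ^ n =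
          PowerSeries.C κ * PowerSeries.X ^ n * (v ^ a - 1) := by
        have h14 : (PowerSeries.C ((μ⁻¹) ^ n) : PowerSeries ℂ_[p]) * PowerSeries.C (μ ^ n) = 1 := by
          rw [← map_mul, inv_pow, inv_mul_cancel₀ (pow_ne_zero _ hμ0), map_one]
        rw [map_mul]
        linear_combination (PowerSeries.C κ * PowerSeries.X ^ n * v ^ a) * h14
      rw [h13]
      refine ord_aux κ hκ0 n _ ?_
      rw [map_sub, map_pow, hvc]
      simp
  have hlog : -(1 / (m : ℝ)) * Real.log (spread F) = Real.log ‖μ⁻¹‖ := by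
    rw [norm_inv, Real.log_inv, ← hab1, ← hμ, norm_pow, Real.log_pow]
    have : (m : ℝ) ≠ 0 := by
      have : 0 < m := by omega
      exact_mod_cast this.ne'
    field_simp
  rw [hlog]
  unfold logRadius
  exact le_iSup₂ (f := fun (c : ℂ_[p]) (_ : c ∈ {c : ℂ_[p] | IsDisc m n F c}) =>
      ((Real.log ‖c‖ : ℝ) : EReal)) μ⁻¹ hdisc

end SzNF
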