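import Pool.Agent.SzNF.Arch
import Pool.Agent.SzNF.Fin

/-!
The height of the point at infinity is at most `1/m` times the height of the differences of the
branch points plus a constant.
-/

open Polynomial MeasureTheory

namespace SzNF

theorem coe_sum {ι : Type*} (s : Finset ι) (u : ι → ℝ) :
    ((∑ i ∈ s, u i : ℝ) : EReal) = ∑ i ∈ s, (u i : EReal) := by
  classical
  induction s using Finset.induction_on with
  | empty => simp
  | insert a s ha ih => rw [Finset.sum_insert ha, Finset.sum_insert ha, EReal.coe_add, ih]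

section numberField

variable (K : Type*) [Field K] [NumberField K]

theorem finPart_term (m : ℕ) (hm : 1 ≤ m) (f : K[X]) (hf : f.Monic) (hs : f.Separable)
    (hn : 2 ≤ f.natDegree) (hmn : m.Coprime f.natDegree) (p : Nat.Primes) :
    ((-(1 / (m : ℝ)) * (haveI : Fact (p : ℕ).Prime := ⟨p.2⟩
      ∑ τ : K →+* ℂ_[(p : ℕ)], Real.log (spread (f.map τ))) : ℝ) : EReal) ≤
    (haveI : Fact (p : ℕ).Prime := ⟨p.2⟩
      ∑ τ : K →+* ℂ_[(p : ℕ)], logRadius p m f.natDegree (f.map τ)) := by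
  have : Fact (p : ℕ).Prime := ⟨p.2⟩
  rw [Finset.mul_sum, coe_sum]
  refine Finset.sum_le_sum fun τ _ => ?_
  exact logRadius_ge (p : ℕ) m f.natDegree hm (f.map τ) (hf.map τ) hs.map (hf.natDegree_map τ) hn hmn

theorem finPart_ge (m : ℕ) (hm : 1 ≤ m) (f : K[X]) (hf : f.Monic) (hs : f.Separable)
    (hn : 2 ≤ f.natDegree) (hmn : m.Coprime f.natDegree) (S : Finset Nat.Primes)
    (hS : (fin_support K f hf hs hn).toFinset ⊆ S) :
    ((-(1 / (m : ℝ)) * (∑ᶠ p : Nat.Primes, haveI : Fact (p : ℕ).Prime := ⟨p.2⟩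
      ∑ τ : K →+* ℂ_[(p : ℕ)], Real.log (spread (f.map τ))) : ℝ) : EReal) ≤ finPart K m f S := by
  rw [finsum_eq_sum_of_support_subset _ (s := S) ?_, Finset.mul_sum, coe_sum]
  · unfold finPart
    exact Finset.sum_le_sum fun p _ => finPart_term K m hm f hf hs hn hmn p
  · intro p hp
    exact hS ((Set.Finite.mem_toFinset _).2 hp)

theorem arch_sum (m : ℕ) (hm : 2 ≤ m) (f : K[X]) (hf : f.Monic) (hs : f.Separable)
    (hn : 2 ≤ f.natDegree) (hmn : m.Coprime f.natDegree) (hg : 1 ≤ genus m f.natDegree)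
    (e : (K →+* ℂ) → (j : ℕ) → Fin (f.natDegree * j / m) → ℂ[X])
    (he : ∀ σ, IsONB m f.natDegree (f.map σ) (e σ)) :
    ∑ σ : K →+* ℂ, energy m f.natDegree (f.map σ) (e σ) ≤
      ∑ σ : K →+* ℂ, Real.log (spread (f.map σ)) + (Module.finrank ℚ K : ℝ) *
        (3 * Real.log 2 + m ^ 3 * (f.natDegree : ℝ) ^ 4 * 16 ^ f.natDegree /
          genus m f.natDegree) := by
  have hcard : (Module.finrank ℚ K : ℝ) = (Finset.univ : Finset (K →+* ℂ)).card := by
    rw [Finset.card_univ, NumberField.Embeddings.card K ℂ]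
  rw [hcard, ← nsmul_eq_mul, ← Finset.sum_const, ← Finset.sum_add_distrib]
  refine Finset.sum_le_sum fun σ _ => ?_
  have hF : (f.map σ).Monic := hf.map σ
  have hs' : (f.map σ).Separable := hs.map
  have hd : (f.map σ).natDegree = f.natDegree := hf.natDegree_map σ
  obtain ⟨h1, ⟨a, b, ha, hb, hab⟩, h3⟩ := spread_spec (f.map σ) hF hs' (by rw [hd]; exact hn)
  have h := energy_le m f.natDegree hm (f.map σ) hF hs' hd (by omega) hmn hg (e σ) (he σ)
    (spread (f.map σ)) h1 b (fun α hα => h3 α b (mem_roots'.1 hα).2 hb)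
  linarith

theorem main_aux (m : ℕ) (hm : 2 ≤ m) (f : K[X]) (hf : f.Monic) (hs : f.Separable)
    (hn : 2 ≤ f.natDegree) (hmn : m.Coprime f.natDegree) (hg : 1 ≤ genus m f.natDegree)
    (e : (K →+* ℂ) → (j : ℕ) → Fin (f.natDegree * j / m) → ℂ[X])
    (he : ∀ σ, IsONB m f.natDegree (f.map σ) (e σ)) :
    height K m f e ≤ (((1 / (m : ℝ)) * branchHeight K f + (1 / (m : ℝ)) *
      (3 * Real.log 2 + m ^ 3 * (f.natDegree : ℝ) ^ 4 * 16 ^ f.natDegree /
          genus m f.natDegree) : ℝ) : EReal) := by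
  have hd0 : (0 : ℝ) < Module.finrank ℚ K := by
    exact_mod_cast Module.finrank_pos
  have hm0 : (0 : ℝ) < m := by exact_mod_cast (by omega : 0 < m)
  have harch := arch_sum K m hm f hf hs hn hmn hg e he
  unfold height
  refine Filter.limsup_le_of_le (h := ?_)
  filter_upwards [Filter.eventually_ge_atTop (fin_support K f hf hs hn).toFinset] with S hS
  have hfin := finPart_ge K m (by omega) f hf hs hn hmn S hS
  unfold branchHeight
  set T : ℝ := ∑ᶠ p : Nat.Primes, haveI : Fact (p : ℕ).Prime := ⟨p.2⟩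
      ∑ τ : K →+* ℂ_[(p : ℕ)], Real.log (spread (f.map τ)) with hT
  set A : ℝ := ∑ σ : K →+* ℂ, energy m f.natDegree (f.map σ) (e σ) with hA
  set L : ℝ := ∑ σ : K →+* ℂ, Real.log (spread (f.map σ)) with hL
  set Q : ℝ := 3 * Real.log 2 + m ^ 3 * (f.natDegree : ℝ) ^ 4 * 16 ^ f.natDegree /
          genus m f.natDegree with hQ
  have h1 : (((1 / (m : ℝ)) * A : ℝ) : EReal) - finPart K m f S ≤
      (((1 / (m : ℝ)) * (A + T) : ℝ) : EReal) := by
    have h2 : (((1 / (m : ℝ)) * A : ℝ) : EReal) - finPart K m f S ≤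
        (((1 / (m : ℝ)) * A : ℝ) : EReal) - ((-(1 / (m : ℝ)) * T : ℝ) : EReal) :=
      EReal.sub_le_sub le_rfl hfin
    refine h2.trans (le_of_eq ?_)
    rw [← EReal.coe_sub]
    congr 1
    ring
  have h3 : (0 : EReal) ≤ ((1 / (Module.finrank ℚ K : ℝ) : ℝ) : EReal) := by
    exact_mod_cast (by positivity : (0 : ℝ) ≤ 1 / (Module.finrank ℚ K : ℝ))
  refine (mul_le_mul_of_nonneg_left h1 h3).trans ?_
  rw [← EReal.coe_mul]
  refine EReal.coe_le_coe_iff.2 ?_
  have h4 : (1 / (Module.finrank ℚ K : ℝ)) * (1 / (m : ℝ) * (A + T)) ≤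
      (1 / (Module.finrank ℚ K : ℝ)) * (1 / (m : ℝ) * (L + Module.finrank ℚ K * Q + T)) := by
    have h5 : A + T ≤ L + Module.finrank ℚ K * Q + T := by linarith
    exact mul_le_mul_of_nonneg_left (mul_le_mul_of_nonneg_left h5 (by positivity)) (by positivity)
  refine h4.trans (le_of_eq ?_)
  field_simp
  ring

theorem genus_bounds (m n : ℕ) (hg : 2 ≤ genus m n) : 2 ≤ m ∧ 2 ≤ n := by
  unfold genus at hg
  constructor
  · by_contra h
    have : m - 1 = 0 := by omega
    rw [this, zero_mul] at hg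
    omega
  · by_contra h
    have : n - 1 = 0 := by omega
    rw [this, mul_zero] at hg
    omega

theorem main (m : ℕ) (f : K[X]) (hf : f.Monic) (hs : f.Separable)
    (hmn : m.Coprime f.natDegree) (hg : 2 ≤ genus m f.natDegree) :
    (∀ σ : K →+* ℂ, ∃ e, IsONB m f.natDegree (f.map σ) e) ∧
    ∀ e : (K →+* ℂ) → (j : ℕ) → Fin (f.natDegree * j / m) → ℂ[X],
      (∀ σ, IsONB m f.natDegree (f.map σ) (e σ)) →
      height K m f e ≤ ((branchHeight K f / m +
        m ^ 2 * f.natDegree ^ 4 * 16 ^ f.natDegree : ℝ) : EReal) := by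
  obtain ⟨hm, hn⟩ := genus_bounds m f.natDegree hg
  refine ⟨fun σ => exists_onb m f.natDegree hm (f.map σ) (hf.map σ) hs.map (hf.natDegree_map σ)
    hmn, fun e he => ?_⟩
  refine (main_aux K m hm f hf hs hn hmn (by omega) e he).trans (EReal.coe_le_coe_iff.2 ?_)
  have hm0 : (0 : ℝ) < m := by exact_mod_cast (by omega : 0 < m)
  have hm2 : (2 : ℝ) ≤ m := by exact_mod_cast hm
  have hn2 : (2 : ℝ) ≤ f.natDegree := by exact_mod_cast hn
  have hg2 : (2 : ℝ) ≤ genus m f.natDegree := by exact_mod_cast hg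
  have hlog2 : Real.log 2 ≤ 1 := by
    have := Real.log_two_lt_d9
    linarith
  have hlog0 : 0 ≤ Real.log 2 := Real.log_nonneg (by norm_num)
  set Y : ℝ := (m : ℝ) ^ 2 * (f.natDegree : ℝ) ^ 4 * 16 ^ f.natDegree with hY
  have hY1 : 4 ≤ Y := by
    have h1 : (1 : ℝ) ≤ (f.natDegree : ℝ) ^ 4 := one_le_pow₀ (by linarith)
    have h2 : (1 : ℝ) ≤ 16 ^ f.natDegree := one_le_pow₀ (by norm_num)
    have h3 : (4 : ℝ) ≤ (m : ℝ) ^ 2 := by nlinarith
    calc (4 : ℝ) = 4 * 1 * 1 := by ring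
      _ ≤ (m : ℝ) ^ 2 * (f.natDegree : ℝ) ^ 4 * 16 ^ f.natDegree := by gcongr
  have h1 : (1 / (m : ℝ)) * (3 * Real.log 2) ≤ 3 / 2 := by
    rw [div_mul_eq_mul_div, one_mul, div_le_iff₀ hm0]
    nlinarith
  have h2 : (1 / (m : ℝ)) * (m ^ 3 * (f.natDegree : ℝ) ^ 4 * 16 ^ f.natDegree /
      genus m f.natDegree) ≤ Y / 2 := by
    have h3 : (1 / (m : ℝ)) * (m ^ 3 * (f.natDegree : ℝ) ^ 4 * 16 ^ f.natDegree /
      genus m f.natDegree) = Y / genus m f.natDegree := by
      rw [hY]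
      field_simp
    rw [h3]
    exact div_le_div_of_nonneg_left (by linarith) (by norm_num) hg2
  have h4 : 1 / (m : ℝ) * branchHeight K f = branchHeight K f / m := by ring
  rw [mul_add, h4]
  linarith

end numberField

end SzNF
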