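import Pool.Agent.SzNF.Defs
import Pool.Agent.SzSP.Mass

/-!
The image of the canonical measure is a probability measure.
-/

open Polynomial MeasureTheory

namespace SzNF

theorem sum_floor (m n : ℕ) (hm : 1 ≤ m) (hn : 1 ≤ n) (hmn : m.Coprime n) :
    ∑ j ∈ Finset.Ico 1 m, n * j / m = genus m n :=
  SzSP.sum_floor m n hm hn hmn

theorem rho_nonneg (m n : ℕ) (F : ℂ[X]) (e : (j : ℕ) → Fin (n * j / m) → ℂ[X]) (z : ℂ) :
    0 ≤ rho m n F e z := by
  unfold rho wt
  apply mul_nonneg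
  · positivity
  · apply Finset.sum_nonneg
    intro j _
    apply Finset.sum_nonneg
    intro k _
    positivity

theorem rho_mass (m n : ℕ) (hm : 2 ≤ m) (F : ℂ[X]) (hmn : m.Coprime n)
    (hg : 1 ≤ genus m n) (e : (j : ℕ) → Fin (n * j / m) → ℂ[X])
    (he : IsONB m n F e) : Integrable (rho m n F e) ∧ ∫ z, rho m n F e z = 1 := by
  have hn1 : 1 ≤ n := by
    rcases Nat.eq_zero_or_pos n with h | h
    · rw [h] at hg
      simp [genus] at hg
    · exact h
  have hm0 : (m : ℝ) ≠ 0 := by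
    have : (0 : ℝ) < m := by exact_mod_cast (by omega : 0 < m)
    exact this.ne'
  have key : ∀ j ∈ Finset.Ico 1 m, ∀ k, Integrable (fun z : ℂ => ‖(e j k).eval z‖ ^ 2 * wt m F j z)
      ∧ ∫ z : ℂ, ‖(e j k).eval z‖ ^ 2 * wt m F j z = 1 / (m : ℝ) := by
    intro j hj k
    have h1 := (he j hj).2 k k
    rw [if_pos rfl] at h1
    have hfun : (fun z : ℂ => (e j k).eval z * (starRingEnd ℂ) ((e j k).eval z) * (wt m F j z : ℂ))
        = fun z : ℂ => ((‖(e j k).eval z‖ ^ 2 * wt m F j z : ℝ) : ℂ) := by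
      funext z
      rw [Complex.mul_conj, Complex.normSq_eq_norm_sq]
      push_cast
      ring
    rw [hfun] at h1
    have h0 : ∫ z : ℂ, ((‖(e j k).eval z‖ ^ 2 * wt m F j z : ℝ) : ℂ)
        = ((∫ z : ℂ, ‖(e j k).eval z‖ ^ 2 * wt m F j z : ℝ) : ℂ) := integral_ofReal
    rw [h0] at h1
    have h2 : (m : ℝ) * ∫ z : ℂ, ‖(e j k).eval z‖ ^ 2 * wt m F j z = 1 := by
      exact_mod_cast h1
    refine ⟨?_, ?_⟩
    · by_contra hni
      rw [integral_undef hni] at h2
      simp at h2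
    · field_simp
      linarith
  have hint : ∀ j ∈ Finset.Ico 1 m, Integrable
      (fun z : ℂ => ∑ k, ‖(e j k).eval z‖ ^ 2 * wt m F j z) := by
    intro j hj
    exact integrable_finsetSum _ (fun k _ => (key j hj k).1)
  have hint2 : Integrable
      (fun z : ℂ => ∑ j ∈ Finset.Ico 1 m, ∑ k, ‖(e j k).eval z‖ ^ 2 * wt m F j z) :=
    integrable_finsetSum _ hint
  refine ⟨hint2.const_mul _, ?_⟩
  have hg0 : ((genus m n : ℕ) : ℝ) ≠ 0 := by
    have : (0 : ℝ) < (genus m n : ℕ) := by exact_mod_cast (by omega)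
    exact this.ne'
  have h3 : ∫ z, rho m n F e z = ((m : ℝ) / genus m n) *
      ∫ z : ℂ, ∑ j ∈ Finset.Ico 1 m, ∑ k, ‖(e j k).eval z‖ ^ 2 * wt m F j z := by
    rw [← integral_const_mul]
    rfl
  rw [h3, integral_finsetSum _ hint]
  have h4 : ∀ j ∈ Finset.Ico 1 m,
      ∫ z : ℂ, ∑ k, ‖(e j k).eval z‖ ^ 2 * wt m F j z = ((n * j / m : ℕ) : ℝ) / m := by
    intro j hj
    rw [integral_finsetSum _ (fun k _ => (key j hj k).1)]
    rw [Finset.sum_congr rfl (fun k _ => (key j hj k).2)]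
    rw [Finset.sum_const, Finset.card_univ, Fintype.card_fin, nsmul_eq_mul]
    ring
  rw [Finset.sum_congr rfl h4, ← Finset.sum_div, ← Nat.cast_sum,
    sum_floor m n (by omega) hn1 hmn]
  field_simp

end SzNF
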