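import Pool.Agent.SzNF.Defs
import Pool.Agent.SzSP.Onb

/-!
Integrability of the weights and existence of orthonormal bases.
-/

open Polynomial MeasureTheory

namespace SzNF

theorem onb_roots (F : ℂ[X]) (hm : F.Monic) (hs : F.Separable) :
    ∃ S : Finset ℂ, S.card = F.natDegree ∧ (∀ z, F.eval z = ∏ α ∈ S, (z - α)) ∧
      ∀ α, α ∈ S ↔ F.IsRoot α := by
  classical
  have hsp : F.Splits := IsAlgClosed.splits _
  have hnd : F.roots.Nodup := nodup_roots hs
  refine ⟨F.roots.toFinset, ?_, fun z => ?_, fun α => ?_⟩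
  · rw [Multiset.toFinset_card_of_nodup hnd]
    exact hsp.natDegree_eq_card_roots.symm
  · have h1 := hsp.eq_prod_roots_of_monic hm
    conv_lhs => rw [h1]
    rw [eval_multiset_prod, Multiset.map_map]
    rw [Finset.prod_eq_multiset_prod, Multiset.toFinset_val, hnd.dedup]
    congr 1
    refine Multiset.map_congr rfl fun α _ => ?_
    simp
  · rw [Multiset.mem_toFinset, mem_roots hm.ne_zero]

/-- the exponents: `2 + 2/m ≤ n (2j/m) - 2i` for `i < floor (n j / m)` -/
theorem exp_le (m n : ℕ) (hm : 2 ≤ m) (hmn : m.Coprime n) (j : ℕ) (hj : j ∈ Finset.Ico 1 m)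
    (i : ℕ) (hi : i < n * j / m) :
    (2 : ℝ) + 2 / m ≤ n * (2 * (j : ℝ) / m) - 2 * i := by
  rw [Finset.mem_Ico] at hj
  have hmr : (0 : ℝ) < m := by exact_mod_cast (by omega : 0 < m)
  have h1 : (i + 1) * m ≤ n * j := (Nat.le_div_iff_mul_le (by omega)).1 hi
  have h2 : (i + 1) * m ≠ n * j := by
    intro h
    have h3 : m ∣ n * j := ⟨i + 1, by rw [← h]; ring⟩
    have h4 : m ∣ j := hmn.dvd_of_dvd_mul_left h3
    have := Nat.le_of_dvd (by omega) h4
    omega
  have h3 : (i + 1) * m + 1 ≤ n * j := lt_of_le_of_ne h1 h2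
  have h4 : ((i : ℝ) + 1) * m + 1 ≤ n * j := by exact_mod_cast h3
  have h5 : (n : ℝ) * (2 * (j : ℝ) / m) = 2 * ((n * j) / m) := by ring
  rw [h5]
  have h6 : (i : ℝ) + 1 + 1 / m ≤ (n * j) / m := by
    rw [le_div_iff₀ hmr, add_mul, one_div, inv_mul_cancel₀ hmr.ne']
    exact h4
  have h7 : (2 : ℝ) / m = 2 * (1 / m) := by ring
  rw [h7]
  linarith

theorem exp_pos (m : ℕ) (j : ℕ) (hj : j ∈ Finset.Ico 1 m) :
    0 < 2 * (j : ℝ) / m ∧ 2 * (j : ℝ) / m < 2 := by
  rw [Finset.mem_Ico] at hj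
  have hmr : (0 : ℝ) < m := by exact_mod_cast (by omega : 0 < m)
  have hjr : (1 : ℝ) ≤ j := by exact_mod_cast hj.1
  refine ⟨by positivity, ?_⟩
  rw [div_lt_iff₀ hmr]
  have : (j : ℝ) < m := by exact_mod_cast hj.2
  linarith

/-- integrability of `|z|^(2i) |F(z)|^(-2j/m)` for `i < n j / m` -/
theorem integrable_wt (m n : ℕ) (hm : 2 ≤ m) (F : ℂ[X]) (hF : F.Monic) (hs : F.Separable)
    (hn : F.natDegree = n) (hmn : m.Coprime n) (j : ℕ) (hj : j ∈ Finset.Ico 1 m) (i : ℕ)
    (hi : i < n * j / m) :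
    Integrable (fun z : ℂ => ‖z‖ ^ (2 * i) * wt m F j z) := by
  obtain ⟨S, hS, hev, -⟩ := onb_roots F hF hs
  have hn0 : n ≠ 0 := by
    intro h0
    rw [h0, zero_mul, Nat.zero_div] at hi
    omega
  have hSn : S.Nonempty := by
    rw [← Finset.card_pos, hS]
    omega
  obtain ⟨hs0, hs2⟩ := exp_pos m j hj
  have hmr : (0 : ℝ) < m := by exact_mod_cast (by omega : 0 < m)
  have hr : (2 : ℝ) < S.card * (2 * (j : ℝ) / m) - 2 * i := by
    have h1 := exp_le m n hm hmn j hj i hi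
    rw [hS, hn]
    have : (0 : ℝ) < 2 / m := by positivity
    linarith
  have h := SzSP.onb_int S hSn _ hs0 hs2 i hr
  refine h.congr (Filter.Eventually.of_forall fun z => ?_)
  simp only [wt]
  rw [hev z, norm_prod]

theorem exists_onb (m n : ℕ) (hm : 2 ≤ m) (F : ℂ[X]) (hF : F.Monic) (hs : F.Separable)
    (hn : F.natDegree = n) (hmn : m.Coprime n) : ∃ e, IsONB m n F e := by
  classical
  obtain ⟨S, hS, hev, -⟩ := onb_roots F hF hs
  have hmr : (0 : ℝ) < m := by exact_mod_cast (by omega : 0 < m)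
  have key : ∀ j ∈ Finset.Ico 1 m, ∃ e : Fin (n * j / m) → ℂ[X],
      (∀ k, (e k).degree < (n * j / m : ℕ)) ∧
      ∀ k l, ((m : ℝ) : ℂ) * ∫ z : ℂ, (e k).eval z * (starRingEnd ℂ) ((e l).eval z) *
        (wt m F j z : ℂ) = if k = l then 1 else 0 := by
    intro j hj
    refine SzSP.onb_one _ (m : ℝ) hmr (wt m F j) (fun z => ?_) ?_ S (fun z hz => ?_)
      fun i hi => ?_
    · unfold wt
      positivity
    · unfold wt
      exact (F.continuous.norm.measurable).pow_const _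
    · unfold wt
      refine Real.rpow_pos_of_pos (norm_pos_iff.2 ?_) _
      rw [hev z]
      refine Finset.prod_ne_zero_iff.2 fun α hα => ?_
      rw [sub_ne_zero]
      rintro rfl
      exact hz hα
    · exact integrable_wt m n hm F hF hs hn hmn j hj i hi
  refine ⟨fun j => if h : j ∈ Finset.Ico 1 m then (key j h).choose else 0, fun j hj => ?_⟩
  simp only [hj, dif_pos]
  have h1 := (key j hj).choose_spec
  refine ⟨h1.1, fun k l => ?_⟩
  have h2 := h1.2 k l
  push_cast at h2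
  exact h2

end SzNF
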