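import Pool.Agent.SzNF.Defs
import Pool.Agent.SzSP.Tail

/-!
Decay of the density of the canonical measure outside the disc of the roots.
-/

open Polynomial MeasureTheory ComplexConjugate

namespace SzNF

lemma eval_roots {F : ℂ[X]} (hF : F.Monic) (z : ℂ) :
    F.eval z = (F.roots.map (z - ·)).prod :=
  (IsAlgClosed.splits F).eval_eq_prod_roots_of_monic hF z

lemma card_roots (F : ℂ[X]) : Multiset.card F.roots = F.natDegree :=
  ((IsAlgClosed.splits F).natDegree_eq_card_roots).symm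

lemma norm_eval_le {F : ℂ[X]} (hF : F.Monic) (R : ℝ) (hR : 0 < R)
    (hroots : ∀ α ∈ F.roots, ‖α‖ ≤ R) (z : ℂ) (hz : ‖z‖ ≤ R) :
    ‖F.eval z‖ ≤ (2 * R) ^ F.natDegree := by
  rw [eval_roots hF, ← card_roots F]
  refine SzSP.prod_le_pow z _ (by positivity) _ fun a ha => ?_
  calc ‖z - a‖ ≤ ‖z‖ + ‖a‖ := norm_sub_le _ _
    _ ≤ 2 * R := by linarith [hroots a ha]

lemma le_norm_eval {F : ℂ[X]} (hF : F.Monic) (R : ℝ) (hR : 0 < R)
    (hroots : ∀ α ∈ F.roots, ‖α‖ ≤ R) (z : ℂ) (hz : 2 * R ≤ ‖z‖) :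
    (‖z‖ / 2) ^ F.natDegree ≤ ‖F.eval z‖ := by
  rw [eval_roots hF, ← card_roots F]
  refine SzSP.pow_le_prod z _ (by positivity) _ fun a ha => ?_
  calc ‖z‖ / 2 ≤ ‖z‖ - ‖a‖ := by linarith [hroots a ha]
    _ ≤ ‖z - a‖ := norm_sub_norm_le _ _

/-- The integral of the square over the disc of the roots. -/
lemma ball_int (m : ℕ) (hm : 2 ≤ m) (F : ℂ[X]) (hF : F.Monic) (R : ℝ) (hR : 0 < R)
    (hroots : ∀ α ∈ F.roots, ‖α‖ ≤ R) (j : ℕ) (P : ℂ[X])
    (hP : (m : ℂ) * ∫ z : ℂ, P.eval z * conj (P.eval z) * (wt m F j z : ℂ) = 1) :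
    ∫ z in Metric.closedBall (0 : ℂ) R, ‖P.eval z‖ ^ 2 ≤
      (((2 * R) ^ F.natDegree) ^ (2 * (j : ℝ) / m)) / m := by
  have hm0 : (0 : ℝ) < m := by exact_mod_cast (by omega : 0 < m)
  have e1 : ∀ z : ℂ, P.eval z * conj (P.eval z) * (wt m F j z : ℂ) =
      ((‖P.eval z‖ ^ 2 * wt m F j z : ℝ) : ℂ) := by
    intro z
    rw [Complex.mul_conj, Complex.normSq_eq_norm_sq]
    push_cast
    ring
  simp_rw [e1] at hP
  rw [integral_complex_ofReal] at hP
  have hP' : (m : ℝ) * ∫ z : ℂ, ‖P.eval z‖ ^ 2 * wt m F j z = 1 := by exact_mod_cast hP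
  have hint : Integrable (fun z : ℂ => ‖P.eval z‖ ^ 2 * wt m F j z) := by
    by_contra h
    rw [integral_undef h] at hP'
    simp at hP'
  have hwt : ∀ z, 0 ≤ wt m F j z := fun z => Real.rpow_nonneg (norm_nonneg _) _
  set c : ℝ := ((2 * R) ^ F.natDegree) ^ (2 * (j : ℝ) / m) with hc
  have hc0 : 0 < c := by positivity
  have hne : F ≠ 0 := hF.ne_zero
  have hae : ∀ᵐ z : ℂ, F.eval z ≠ 0 := by
    have hfin : {z : ℂ | ¬ F.eval z ≠ 0}.Finite := by
      refine (F.roots.toFinset.finite_toSet).subset fun z hz => ?_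
      simp only [Finset.mem_coe, Multiset.mem_toFinset]
      rw [mem_roots hne]
      simpa using hz
    exact hfin.measure_zero _
  calc ∫ z in Metric.closedBall (0 : ℂ) R, ‖P.eval z‖ ^ 2
      ≤ ∫ z in Metric.closedBall (0 : ℂ) R, c * (‖P.eval z‖ ^ 2 * wt m F j z) := by
        refine setIntegral_mono_on_ae ?_ ?_ measurableSet_closedBall ?_
        · exact (by fun_prop : Continuous fun z : ℂ => ‖P.eval z‖ ^ 2).continuousOn.integrableOn_compact
            (isCompact_closedBall 0 R)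
        · exact (hint.const_mul c).integrableOn
        · filter_upwards [hae] with z hz hzb
          have h1 : ‖F.eval z‖ ≤ (2 * R) ^ F.natDegree :=
            norm_eval_le hF R hR hroots z (by simpa using hzb)
          have h2 : c⁻¹ ≤ wt m F j z := by
            rw [hc, wt, ← Real.rpow_neg (by positivity)]
            exact Real.rpow_le_rpow_of_nonpos (norm_pos_iff.2 hz) h1 (by
              have : 0 ≤ 2 * (j : ℝ) / m := by positivity
              linarith)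
          have h3 : 1 ≤ c * wt m F j z := by
            calc 1 = c * c⁻¹ := (mul_inv_cancel₀ hc0.ne').symm
              _ ≤ _ := mul_le_mul_of_nonneg_left h2 hc0.le
          calc ‖P.eval z‖ ^ 2 = ‖P.eval z‖ ^ 2 * 1 := (mul_one _).symm
            _ ≤ ‖P.eval z‖ ^ 2 * (c * wt m F j z) := mul_le_mul_of_nonneg_left h3 (by positivity)
            _ = _ := by ring
    _ ≤ ∫ z : ℂ, c * (‖P.eval z‖ ^ 2 * wt m F j z) := by
        refine setIntegral_le_integral (hint.const_mul c) (Filter.Eventually.of_forall fun z => ?_)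
        have := hwt z
        simp only [Pi.zero_apply]
        positivity
    _ = c / m := by
        rw [integral_const_mul]
        field_simp
        linarith

lemma term_le (m : ℕ) (hm : 2 ≤ m) (F : ℂ[X]) (hF : F.Monic)
    (hmn : m.Coprime F.natDegree) (j : ℕ) (hj1 : 1 ≤ j) (hjm : j < m) (P : ℂ[X])
    (hd : P.degree < (F.natDegree * j / m : ℕ))
    (hP : (m : ℂ) * ∫ z : ℂ, P.eval z * conj (P.eval z) * (wt m F j z : ℂ) = 1)
    (hd0 : 1 ≤ F.natDegree * j / m)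
    (R : ℝ) (hR : 0 < R)
    (hroots : ∀ α ∈ F.roots, ‖α‖ ≤ R) (z : ℂ) (hz : 2 * R ≤ ‖z‖) :
    ‖P.eval z‖ ^ 2 * wt m F j z ≤ ((F.natDegree * j / m : ℕ) : ℝ) ^ 3 * 16 ^ F.natDegree /
      (Real.pi * R ^ 2 * m) * (‖z‖ / R) ^ (-(2 + 2 / (m : ℝ))) := by
  set n := F.natDegree with hn
  set d := n * j / m with hdd
  have hm0 : (0 : ℝ) < m := by exact_mod_cast (by omega : 0 < m)
  have h1 := ball_int m hm F hF R hR hroots j P hP
  have h2 := SzSP.eval_sq_le P d hd R hR _ h1 z (by linarith)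
  have hz0 : 0 < ‖z‖ := by linarith
  have h3 : wt m F j z ≤ ((‖z‖ / 2) ^ n) ^ (-(2 * (j : ℝ) / m)) := by
    rw [wt]
    exact Real.rpow_le_rpow_of_nonpos (by positivity) (le_norm_eval hF R hR hroots z hz) (by
      have : 0 ≤ 2 * (j : ℝ) / m := by positivity
      linarith)
  set s : ℝ := 2 * (j : ℝ) / m with hs
  have hs0 : 0 ≤ s := by positivity
  set t : ℝ := ‖z‖ / R with ht
  have ht2 : 2 ≤ t := by rw [ht, le_div_iff₀ hR]; exact hz
  have ht0 : 0 < t := by linarith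
  have hzt : ‖z‖ = t * R := by rw [ht]; field_simp
  have h4 : ((2 * R) ^ n) ^ s * ((‖z‖ / 2) ^ n) ^ (-s) = (4 : ℝ) ^ (n * s) * t ^ (-(n * s)) := by
    rw [hzt, Real.rpow_neg (by positivity), ← div_eq_mul_inv, ← Real.div_rpow (by positivity)
      (by positivity), ← div_pow]
    have : 2 * R / (t * R / 2) = 4 / t := by
      field_simp
      norm_num
    rw [this, ← Real.rpow_natCast, ← Real.rpow_mul (by positivity), Real.div_rpow (by norm_num)
      ht0.le, Real.rpow_neg ht0.le]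
    rfl
  have h5 : (4 : ℝ) ^ (n * s) ≤ 16 ^ n := by
    have : (16 : ℝ) ^ n = (4 : ℝ) ^ ((2 * n : ℕ) : ℝ) := by
      rw [Real.rpow_natCast, pow_mul]
      norm_num
    rw [this]
    refine Real.rpow_le_rpow_of_exponent_le (by norm_num) ?_
    push_cast
    have hs2 : s ≤ 2 := by
      rw [hs, div_le_iff₀ hm0]
      have : (j : ℝ) ≤ m := by exact_mod_cast hjm.le
      linarith
    calc (n : ℝ) * s ≤ n * 2 := mul_le_mul_of_nonneg_left hs2 (Nat.cast_nonneg n)
      _ = 2 * n := by ring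
  -- the exponent
  have hdiv : m * d + 1 ≤ n * j := by
    have h6 : m * d ≤ n * j := Nat.mul_div_le _ _
    have h7 : m * d ≠ n * j := by
      intro h
      have h8 : m ∣ n * j := ⟨d, h.symm⟩
      have h9 : m ∣ j := hmn.dvd_of_dvd_mul_left h8
      exact absurd (Nat.le_of_dvd (by omega) h9) (by omega)
    omega
  have hdiv' : (m : ℝ) * d + 1 ≤ n * j := by exact_mod_cast hdiv
  have h6 : t ^ (2 * (d - 1)) * t ^ (-(n * s)) ≤ t ^ (-(2 + 2 / (m : ℝ))) := by
    rw [← Real.rpow_natCast, ← Real.rpow_add ht0]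
    refine Real.rpow_le_rpow_of_exponent_le (by linarith) ?_
    have : ((2 * (d - 1) : ℕ) : ℝ) = 2 * (d : ℝ) - 2 := by
      rw [Nat.cast_mul, Nat.cast_sub hd0]
      push_cast
      ring
    rw [this, hs]
    have h7 : 2 * (d : ℝ) - n * (2 * j / m) ≤ - (2 / m) := by
      have : 2 * (d : ℝ) - n * (2 * j / m) = 2 * ((m * d : ℝ) - n * j) / m := by
        field_simp
      rw [this, ← neg_div, div_le_div_iff_of_pos_right hm0]
      linarith
    linarith
  have hwt0 : 0 ≤ wt m F j z := Real.rpow_nonneg (norm_nonneg _) _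
  calc ‖P.eval z‖ ^ 2 * wt m F j z
      ≤ ((d : ℝ) ^ 3 * (((2 * R) ^ n) ^ s / m) / (Real.pi * R ^ 2) * t ^ (2 * (d - 1))) *
          ((‖z‖ / 2) ^ n) ^ (-s) := mul_le_mul h2 h3 hwt0 (by positivity)
    _ = (d : ℝ) ^ 3 / (Real.pi * R ^ 2 * m) * (((2 * R) ^ n) ^ s * ((‖z‖ / 2) ^ n) ^ (-s)) *
          t ^ (2 * (d - 1)) := by
        field_simp
    _ = (d : ℝ) ^ 3 / (Real.pi * R ^ 2 * m) * (4 : ℝ) ^ (n * s) *
          (t ^ (2 * (d - 1)) * t ^ (-(n * s))) := by
        rw [h4]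
        ring
    _ ≤ (d : ℝ) ^ 3 / (Real.pi * R ^ 2 * m) * 16 ^ n * t ^ (-(2 + 2 / (m : ℝ))) := by
        refine mul_le_mul (mul_le_mul_of_nonneg_left h5 (by positivity)) h6 (by positivity)
          (by positivity)
    _ = _ := by ring

theorem rho_tail' (m : ℕ) (hm : 2 ≤ m) (F : ℂ[X]) (hF : F.Monic) (hn : 1 ≤ F.natDegree)
    (hmn : m.Coprime F.natDegree)
    (e : (j : ℕ) → Fin (F.natDegree * j / m) → ℂ[X]) (he : IsONB m F.natDegree F e) (R : ℝ) (hR : 0 < R)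
    (hroots : ∀ α ∈ F.roots, ‖α‖ ≤ R) (z : ℂ) (hz : 2 * R ≤ ‖z‖) :
    rho m F.natDegree F e z ≤ (m * (F.natDegree : ℝ) ^ 4 * 16 ^ F.natDegree /
      (genus m F.natDegree * Real.pi * R ^ 2)) * (‖z‖ / R) ^ (-(2 + 2 / (m : ℝ))) := by
  have hm0 : (0 : ℝ) < m := by exact_mod_cast (by omega : 0 < m)
  set X : ℝ := (‖z‖ / R) ^ (-(2 + 2 / (m : ℝ))) with hX
  have hX0 : 0 ≤ X := Real.rpow_nonneg (by positivity) _
  have h1 : ∀ j ∈ Finset.Ico 1 m, ∑ k, ‖(e j k).eval z‖ ^ 2 * wt m F j z ≤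
      (F.natDegree : ℝ) ^ 4 * 16 ^ F.natDegree / (Real.pi * R ^ 2 * m) * X := by
    intro j hj
    obtain ⟨hj1, hj2⟩ := Finset.mem_Ico.1 hj
    obtain ⟨he1, he2⟩ := he j hj
    have hdn : F.natDegree * j / m ≤ F.natDegree := by
      refine Nat.div_le_of_le_mul ?_
      rw [mul_comm m F.natDegree]
      exact Nat.mul_le_mul_left F.natDegree hj2.le
    calc ∑ k, ‖(e j k).eval z‖ ^ 2 * wt m F j z
        ≤ ∑ _k : Fin (F.natDegree * j / m), ((F.natDegree * j / m : ℕ) : ℝ) ^ 3 * 16 ^ F.natDegree /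
            (Real.pi * R ^ 2 * m) * X := by
          refine Finset.sum_le_sum fun k _ => ?_
          refine term_le m hm F hF hmn j hj1 hj2 (e j k) (he1 k) ?_ ?_ R hR hroots z hz
          · have := he2 k k
            rwa [if_pos rfl] at this
          · exact Nat.one_le_iff_ne_zero.2 (Nat.pos_iff_ne_zero.1 (Fin.pos k))
      _ = ((F.natDegree * j / m : ℕ) : ℝ) ^ 4 * 16 ^ F.natDegree / (Real.pi * R ^ 2 * m) * X := by
          rw [Finset.sum_const, Finset.card_univ, Fintype.card_fin, nsmul_eq_mul]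
          ring
      _ ≤ _ := by
          refine mul_le_mul_of_nonneg_right ?_ hX0
          refine div_le_div_of_nonneg_right ?_ (by positivity)
          refine mul_le_mul_of_nonneg_right ?_ (by positivity)
          exact pow_le_pow_left₀ (Nat.cast_nonneg _) (by exact_mod_cast hdn) 4
  have h2 : ∑ j ∈ Finset.Ico 1 m, ∑ k, ‖(e j k).eval z‖ ^ 2 * wt m F j z ≤
      (F.natDegree : ℝ) ^ 4 * 16 ^ F.natDegree / (Real.pi * R ^ 2) * X := by
    refine (Finset.sum_le_sum h1).trans ?_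
    rw [Finset.sum_const, Nat.card_Ico, nsmul_eq_mul]
    calc ((m - 1 : ℕ) : ℝ) * ((F.natDegree : ℝ) ^ 4 * 16 ^ F.natDegree / (Real.pi * R ^ 2 * m) * X)
        ≤ m * ((F.natDegree : ℝ) ^ 4 * 16 ^ F.natDegree / (Real.pi * R ^ 2 * m) * X) := by
          refine mul_le_mul_of_nonneg_right ?_ (by positivity)
          exact_mod_cast Nat.sub_le m 1
      _ = _ := by field_simp
  rw [rho]
  calc ((m : ℝ) / genus m F.natDegree) * ∑ j ∈ Finset.Ico 1 m, ∑ k, ‖(e j k).eval z‖ ^ 2 * wt m F j z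
      ≤ ((m : ℝ) / genus m F.natDegree) * ((F.natDegree : ℝ) ^ 4 * 16 ^ F.natDegree / (Real.pi * R ^ 2) * X) :=
        mul_le_mul_of_nonneg_left h2 (by positivity)
    _ = _ := by
        rw [← mul_assoc, div_mul_div_comm]
        congr 2 <;> ring

theorem rho_tail (m n : ℕ) (hm : 2 ≤ m) (F : ℂ[X]) (hF : F.Monic) (hn : F.natDegree = n)
    (hn1 : 1 ≤ n) (hmn : m.Coprime n)
    (e : (j : ℕ) → Fin (n * j / m) → ℂ[X]) (he : IsONB m n F e) (R : ℝ) (hR : 0 < R)
    (hroots : ∀ α ∈ F.roots, ‖α‖ ≤ R) (z : ℂ) (hz : 2 * R ≤ ‖z‖) :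
    rho m n F e z ≤ (m * (n : ℝ) ^ 4 * 16 ^ n /
      (genus m n * Real.pi * R ^ 2)) * (‖z‖ / R) ^ (-(2 + 2 / (m : ℝ))) := by
  subst hn
  exact rho_tail' m hm F hF hn1 hmn e he R hR hroots z hz

end SzNF
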