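import Pool.Agent.SzNF.Mass
import Pool.Agent.SzNF.Tail

/-!
Translation invariance of the archimedean data.
-/

open Polynomial MeasureTheory

namespace SzNF

theorem wt_shift (m : ℕ) (F : ℂ[X]) (b : ℂ) (j : ℕ) (z : ℂ) :
    wt m (taylor b F) j z = wt m F j (z + b) := by
  unfold wt
  rw [taylor_eval]

theorem isONB_shift (m n : ℕ) (F : ℂ[X]) (e : (j : ℕ) → Fin (n * j / m) → ℂ[X])
    (he : IsONB m n F e) (b : ℂ) : IsONB m n (taylor b F) (fun j k => taylor b (e j k)) := by
  intro j hj
  obtain ⟨h1, h2⟩ := he j hj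
  refine ⟨fun k => ?_, fun k l => ?_⟩
  · rw [degree_taylor]
    exact h1 k
  · rw [← h2 k l]
    congr 1
    have := integral_add_right_eq_self (μ := (volume : Measure ℂ)) (fun z : ℂ =>
      (e j k).eval z * (starRingEnd ℂ) ((e j l).eval z) * (wt m F j z : ℂ)) b
    rw [← this]
    refine integral_congr_ae (Filter.Eventually.of_forall fun z => ?_)
    simp only [taylor_eval, wt_shift]

theorem rho_shift (m n : ℕ) (F : ℂ[X]) (e : (j : ℕ) → Fin (n * j / m) → ℂ[X]) (b z : ℂ) :
    rho m n (taylor b F) (fun j k => taylor b (e j k)) z = rho m n F e (z + b) := by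
  unfold rho
  simp only [taylor_eval, wt_shift]

theorem energy_shift (m n : ℕ) (F : ℂ[X]) (e : (j : ℕ) → Fin (n * j / m) → ℂ[X]) (b : ℂ) :
    energy m n (taylor b F) (fun j k => taylor b (e j k)) = energy m n F e := by
  unfold energy
  simp only [rho_shift]
  have h1 := integral_add_right_eq_self (μ := (volume : Measure ℂ)) (fun x : ℂ =>
    (∫ s : ℂ, Real.log ‖x - s‖ * rho m n F e s) * rho m n F e x) b
  rw [← h1]
  refine integral_congr_ae (Filter.Eventually.of_forall fun x => ?_)
  simp only
  congr 1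
  have h2 := integral_add_right_eq_self (μ := (volume : Measure ℂ)) (fun s : ℂ =>
    Real.log ‖x + b - s‖ * rho m n F e s) b
  rw [← h2]
  refine integral_congr_ae (Filter.Eventually.of_forall fun s => ?_)
  simp only
  congr 3
  ring

theorem monic_shift (F : ℂ[X]) (hF : F.Monic) (b : ℂ) : (taylor b F).Monic := by
  unfold Monic leadingCoeff
  rw [natDegree_taylor, taylor_apply]
  have := hF.comp (monic_X_add_C b) (by rw [natDegree_X_add_C]; exact one_ne_zero)
  have h2 := this.leadingCoeff
  unfold leadingCoeff at h2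
  rwa [natDegree_comp, natDegree_X_add_C, mul_one] at h2

theorem separable_shift (F : ℂ[X]) (hs : F.Separable) (b : ℂ) : (taylor b F).Separable := by
  unfold Separable at hs ⊢
  have h1 := hs.map (taylorAlgHom b).toRingHom
  have h2 : derivative (taylor b F) = taylor b (derivative F) := by
    rw [taylor_apply, derivative_comp, taylor_apply]
    simp
  rw [h2]
  exact h1

theorem roots_shift (F : ℂ[X]) (b α : ℂ) (R : ℝ) (hF : F.Monic)
    (hroots : ∀ β ∈ F.roots, ‖β - b‖ ≤ R) (hα : α ∈ (taylor b F).roots) : ‖α‖ ≤ R := by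
  have h1 : (taylor b F).IsRoot α := (mem_roots'.1 hα).2
  have h2 : F.IsRoot (α + b) := by
    unfold IsRoot at h1 ⊢
    rwa [taylor_eval] at h1
  have h3 := hroots (α + b) ((mem_roots hF.ne_zero).2 h2)
  rwa [add_sub_cancel_right] at h3

end SzNF
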